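import Pool.Agent.Lib.MP_f9eb18_lc.W.B3

/-! # Cone homogeneity: transfer of generic filters, the almost disjoint coding is homogeneous -/

namespace Pool.Agent.Lib.MP_f9eb18_lc.W

open Ordinal ZFSet
set_option linter.style.haveILetI false
set_option linter.unusedVariables false
set_option synthInstance.maxSize 100000

/-- a back and forth relation between two cones moves a generic filter and keeps the extension -/
theorem ha_cone {M : Set V} [IsZ M] {P le G R p q : V} (hpo : IsPO P le) (hP : P ∈ M)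
    (hle : le ∈ M) (hR : R ∈ M) (h : Gen M P le G) (hp : p ∈ G) (hq : q ∈ P)
    (h1 : ∀ r ∈ P, pair r p ∈ le → ∃ s, pair r s ∈ R)
    (h2 : ∀ s ∈ P, pair s q ∈ le → ∃ r, pair r s ∈ R)
    (h3 : ∀ r s, pair r s ∈ R → pair r p ∈ le ∧ pair s q ∈ le)
    (h4 : ∀ r s r' s', pair r s ∈ R → pair r' s' ∈ R → (pair r' r ∈ le ↔ pair s' s ∈ le)) :
    ∃ G', Gen M P le G' ∧ q ∈ G' ∧ gext M G' = gext M G := by
  have l1 : ∀ {a b}, pair a b ∈ le → a ∈ P := fun k => (pair_mem_prod.1 (hpo.sub k)).1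
  have l2 : ∀ {a b}, pair a b ∈ le → b ∈ P := fun k => (pair_mem_prod.1 (hpo.sub k)).2
  have tr : ∀ {a b c}, pair a b ∈ le → pair b c ∈ le → pair a c ∈ le := fun k k' => f0b_tr hpo k k'
  obtain ⟨G', hG⟩ : ∃ G' : V,
      G' = ZFSet.sep (fun t => ∃ r ∈ G, ∃ s, pair r s ∈ R ∧ pair s t ∈ le) P := ⟨_, rfl⟩
  have m : ∀ t, t ∈ G' ↔ t ∈ P ∧ ∃ r ∈ G, ∃ s, pair r s ∈ R ∧ pair s t ∈ le := fun t => by
    rw [hG, mem_sep]
  have m1 : ∀ r ∈ G, ∀ s, pair r s ∈ R → s ∈ G' := fun r hr s k =>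
    (m s).2 ⟨l1 (h3 r s k).2, r, hr, s, k, hpo.refl _ (l1 (h3 r s k).2)⟩
  have hq' : q ∈ G' := by
    obtain ⟨s, k⟩ := h1 p (h.sub hp) (hpo.refl p (h.sub hp))
    exact (m q).2 ⟨hq, p, hp, s, k, (h3 p s k).2⟩
  have h' : Gen M P le G' := by
    refine ⟨fun r hr => ((m r).1 hr).1, (nonempty_def G').2 ⟨q, hq'⟩, fun t ht t' ht' e => ?_,
      fun t ht t' ht' => ?_, fun D hD hd => ?_⟩
    · obtain ⟨-, r, hr, s, k1, k2⟩ := (m t).1 ht
      exact (m t').2 ⟨ht', r, hr, s, k1, tr k2 e⟩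
    · obtain ⟨-, r, hr, s, k1, k2⟩ := (m t).1 ht
      obtain ⟨-, r', hr', s', k1', k2'⟩ := (m t').1 ht'
      obtain ⟨u, hu, a1, a2⟩ := h.dir r hr r' hr'
      obtain ⟨w, hw⟩ := h1 u (h.sub hu) (tr a1 (h3 r s k1).1)
      exact ⟨w, m1 u hu w hw, tr ((h4 r s u w k1 hw).1 a1) k2,
        tr ((h4 r' s' u w k1' hw).1 a2) k2'⟩
    · haveI : In M R := ⟨hR⟩
      haveI : In M D := ⟨hD⟩
      haveI : In M le := ⟨hle⟩
      obtain ⟨r, hr, k⟩ := h.meet_below hpo hP hle hp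
        (sep_mem M (fun r => ∃ s, pair r s ∈ R ∧ s ∈ D) hP) fun r hr e => by
          obtain ⟨s, k⟩ := h1 r hr e
          obtain ⟨d, hd1, hd2⟩ := hd.2 s (l1 (h3 r s k).2)
          obtain ⟨r', k'⟩ := h2 d (hd.1 hd1) (tr hd2 (h3 r s k).2)
          exact ⟨r', mem_sep.2 ⟨l1 (h3 r' d k').1, d, k', hd1⟩, l1 (h3 r' d k').1,
            (h4 r s r' d k k').2 hd2⟩
      obtain ⟨s, k1, k2⟩ := (mem_sep.1 k).2
      exact ⟨s, m1 r hr s k1, k2⟩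
  haveI := isZ_gext hpo hP hle h
  haveI := isZ_gext hpo hP hle h'
  have s := subset_gext hP h
  have s' := subset_gext hP h'
  refine ⟨G', h', hq', (gext_min s ?_).antisymm (gext_min s' ?_)⟩
  · haveI : In (gext M G) R := ⟨s hR⟩
    haveI : In (gext M G) le := ⟨s hle⟩
    haveI : In (gext M G) G := ⟨gen_mem_gext hP h⟩
    exact hG ▸ sep_mem _ _ (s hP)
  · haveI : In (gext M G') R := ⟨s' hR⟩
    haveI : In (gext M G') le := ⟨s' hle⟩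
    haveI : In (gext M G') G' := ⟨gen_mem_gext hP h'⟩
    have e : ZFSet.sep (fun t => ∃ s ∈ G', ∃ r, pair r s ∈ R ∧ pair r t ∈ le) P = G :=
      ZFSet.ext fun t => by
        rw [mem_sep]
        refine ⟨fun ⟨k, s, hs, r, k1, k2⟩ => ?_, fun k => ⟨h.sub k, ?_⟩⟩
        · obtain ⟨-, r₀, hr₀, s₀, k3, k4⟩ := (m s).1 hs
          exact h.up r₀ hr₀ t k (tr ((h4 r s r₀ s₀ k1 k3).2 k4) k2)
        · obtain ⟨u, hu, a1, a2⟩ := h.dir t k p hp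
          obtain ⟨w, hw⟩ := h1 u (h.sub hu) a2
          exact ⟨w, m1 u hu w hw, u, hw, a1⟩
    have := sep_mem (gext M G') (fun t => ∃ s ∈ G', ∃ r, pair r s ∈ R ∧ pair r t ∈ le) (s' hP)
    rwa [e] at this

/-- two conditions lie in generic filters with the same extension -/
def Twin (M : Set V) (P le p q : V) : Prop :=
  ∃ G G', Gen M P le G ∧ Gen M P le G' ∧ p ∈ G ∧ q ∈ G' ∧ gext M G' = gext M G

theorem ha_twin {M : Set V} [IsZ M] (hc : M.Countable) {P le R p q p' q' : V} (hpo : IsPO P le)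
    (hP : P ∈ M) (hle : le ∈ M) (hR : R ∈ M) (hp : pair p p' ∈ le) (hq : pair q q' ∈ le)
    (h1 : ∀ r ∈ P, pair r p ∈ le → ∃ s, pair r s ∈ R)
    (h2 : ∀ s ∈ P, pair s q ∈ le → ∃ r, pair r s ∈ R)
    (h3 : ∀ r s, pair r s ∈ R → pair r p ∈ le ∧ pair s q ∈ le)
    (h4 : ∀ r s r' s', pair r s ∈ R → pair r' s' ∈ R → (pair r' r ∈ le ↔ pair s' s ∈ le)) :
    Twin M P le p' q' := by
  obtain ⟨G, hG, k⟩ := exists_gen hc hpo (pair_mem_prod.1 (hpo.sub hp)).1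
  obtain ⟨G', hG', k', e⟩ := ha_cone hpo hP hle hR hG k (pair_mem_prod.1 (hpo.sub hq)).1 h1 h2 h3 h4
  exact ⟨G, G', hG, hG', f0b_up hpo hG k hp, f0b_up hpo hG' k' hq, e⟩

/-- truth lemma for check names -/
theorem truth_chk {M : Set V} [IsZ M] {P le G : V} (hpo : IsPO P le) (hP : P ∈ M) (hle : le ∈ M)
    (h : Gen M P le G) (φ : Fo) {v : ℕ → V} (hv : ∀ i, v i ∈ M) :
    Sat1 (gext M G) φ v ↔ ∃ p ∈ G, Frc M P le φ p (fun i => chk P (v i)) := by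
  haveI : In M P := ⟨hP⟩
  rw [← truth hpo hP hle h φ (τ := fun i => chk P (v i)) fun i =>
    haveI : In M (v i) := ⟨hv i⟩; memV_of M _]
  exact iff_of_eq (congrArg _ (funext fun i => (val_chk h.sub h.ne _).symm))

/-- truth about ground model sets in an extension by a homogeneous forcing -/
theorem ha_hom {M : Set V} [IsZ M] {P le G : V} (hpo : IsPO P le) (hP : P ∈ M) (hle : le ∈ M)
    (h : Gen M P le G) (hh : ∀ p ∈ P, ∀ q ∈ P, Twin M P le p q) (φ : Fo) {v : ℕ → V}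
    (hv : ∀ i, v i ∈ M) :
    Sat1 (gext M G) φ v ↔ ∃ p ∈ P, Frc M P le φ p (fun i => chk P (v i)) := by
  refine ⟨fun k => ?_, fun ⟨p, hp, k⟩ => by_contra fun hn => ?_⟩
  · obtain ⟨p, hp, k'⟩ := (truth_chk hpo hP hle h φ hv).1 k
    exact ⟨p, h.sub hp, k'⟩
  · obtain ⟨q, hq, k'⟩ := (truth_chk hpo hP hle h (.neg φ) hv).1 hn
    obtain ⟨G₁, G₂, a1, a2, a3, a4, e⟩ := hh p hp q (h.sub hq)
    have b1 := (truth_chk hpo hP hle a1 φ hv).2 ⟨p, a3, k⟩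
    have b2 := (truth_chk hpo hP hle a2 (.neg φ) hv).2 ⟨q, a4, k'⟩
    rw [e] at b2
    exact b2 b1

/-! ### the almost disjoint coding -/
/-- the entry `x` is forbidden by the promises `K` -/
def Forb (s K x : V) : Prop :=
  ∃ y ∈ K, fst y = fst x ∧ ∃ n : ℕ, snd x = adEl s (fst (snd y)) (snd (snd y)) n
instance ud_forb {F : Fr} {s : V} [HasS F s] {a b : Set V → (ℕ → V) → V} [UF F a] [UF F b] :
    UD F (fun M v => Forb s (a M v) (b M v)) := by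
  have := UF.lift (F := F) b; unfold Forb; infer_instance
theorem le1_iff {s c' c : V} : Le1 s c' c ↔
    fst c ⊆ fst c' ∧ snd c ⊆ snd c' ∧ ∀ x ∈ fst c', x ∉ fst c → ¬ Forb s (snd c) x :=
  and_congr_right fun _ => and_congr_right fun _ => forall_congr' fun x => forall_congr' fun _ =>
    forall_congr' fun _ => ⟨fun h ⟨y, h1, h2, n, h3⟩ => h y h1 h2 n h3,
      fun h y h1 h2 n h3 => h ⟨y, h1, h2, n, h3⟩⟩
theorem Forb.mono {s K K' x : V} (h : Forb s K x) (hs : K ⊆ K') : Forb s K' x :=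
  let ⟨y, h1, h2⟩ := h; ⟨y, hs h1, h2⟩
/-- the back and forth relation -/
def Sw1 (s K a b r t : V) : Prop :=
  Le1 s r (pair a K) ∧ Le1 s t (pair b K) ∧ snd r = snd t ∧
    (∀ x ∈ fst r, ¬ Forb s K x → x ∈ fst t) ∧ ∀ x ∈ fst t, ¬ Forb s K x → x ∈ fst r
theorem Sw1.symm {s K a b r t : V} (h : Sw1 s K a b r t) : Sw1 s K b a t r :=
  ⟨h.2.1, h.1, h.2.2.1.symm, h.2.2.2.2, h.2.2.2.1⟩
theorem Sw1.le {s K a b r t r' t' : V} (h : Sw1 s K a b r t) (h' : Sw1 s K a b r' t')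
    (hl : Le1 s r' r) : Le1 s t' t := by
  obtain ⟨-, a2, a3, a4, a5⟩ := h
  obtain ⟨-, b2, b3, b4, b5⟩ := h'
  rw [le1_iff] at a2 b2 hl ⊢
  simp only [fst_pair, snd_pair] at a2 b2
  refine ⟨fun x hx => ?_, a3 ▸ b3 ▸ hl.2.1, fun x hx hn => ?_⟩
  · by_cases k : Forb s K x
    · exact b2.1 (by_contra fun k' => a2.2.2 x hx k' k)
    · exact b4 x (hl.1 (a5 x hx k)) k
  · have k : ¬ Forb s K x := b2.2.2 x hx fun k' => hn (a2.1 k')
    exact a3 ▸ hl.2.2 x (b5 x hx k) fun k' => hn (a4 x k' k)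
theorem sw1_ex {N : Set V} [IsZFC N] {s K a b r : V} (hb : pair b K ∈ Q1 N)
    (hab : ∀ x ∈ b, ¬ Forb s K x → x ∈ a) (hr : r ∈ Q1 N) (hl : Le1 s r (pair a K)) :
    ∃ t ∈ Q1 N, Sw1 s K a b r t := by
  obtain ⟨b1, -, b3, -, -⟩ := pair_mem_Q1.1 hb
  obtain ⟨r1, r2, r3, r4, r5⟩ := pair_mem_Q1.1 (Q1_eq_pair hr ▸ hr)
  have hl' := le1_iff.1 hl
  simp only [fst_pair, snd_pair] at hl'
  refine ⟨pair (b ∪ ZFSet.sep (fun x => ¬ Forb s K x) (fst r)) (snd r), pair_mem_Q1.2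
    ⟨(b1.union r1).subset fun x hx => (mem_union.1 hx).imp_right fun k => (mem_sep.1 k).1, r2,
      fun x hx => (mem_union.1 hx).elim (@b3 x) fun k => r3 (mem_sep.1 k).1, r4, r5⟩,
    hl, le1_iff.2 ?_, ?_⟩
  · simp only [fst_pair, snd_pair]
    exact ⟨fun x hx => mem_union.2 (Or.inl hx), hl'.2.1,
      fun x hx hn => (mem_sep.1 ((mem_union.1 hx).resolve_left hn)).2⟩
  · simp only [fst_pair, snd_pair]
    exact ⟨trivial, fun x hx k => mem_union.2 (Or.inr (mem_sep.2 ⟨hx, k⟩)),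
      fun x hx k => (mem_union.1 hx).elim (fun k' => hl'.1 (hab x k' k)) fun k' => (mem_sep.1 k').1⟩

theorem twin_Q1 {N : Set V} [IsZFC N] (hc : N.Countable) {s : V} (hs : s ∈ N) :
    ∀ p ∈ Q1 N, ∀ q ∈ Q1 N, Twin N (Q1 N) (le1 N s) p q := by
  intro p hp q hq
  obtain ⟨p1, p2, p3, p4, p5⟩ := pair_mem_Q1.1 (Q1_eq_pair hp ▸ hp)
  obtain ⟨q1, q2, q3, q4, q5⟩ := pair_mem_Q1.1 (Q1_eq_pair hq ▸ hq)
  obtain ⟨K, hK⟩ : ∃ K : V, ∀ x, x ∈ K ↔ x ∈ snd p ∨ x ∈ snd q := ⟨_, fun _ => mem_union⟩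
  have key : ∀ u u' : V, (u : Set V).Finite → (u' : Set V).Finite → u ⊆ prod (relS N) omegaZ →
      u' ⊆ prod (relS N) omegaZ →
      pair (u ∪ ZFSet.sep (fun x => ¬ Forb s K x) u') K ∈ Q1 N := fun u u' a1 a2 a3 a4 =>
    pair_mem_Q1.2
      ⟨(a1.union a2).subset fun x hx => (mem_union.1 hx).imp_right fun k => (mem_sep.1 k).1,
        (p2.union q2).subset fun x hx => (hK x).1 hx,
        fun x hx => (mem_union.1 hx).elim (@a3 x) fun k => a4 (mem_sep.1 k).1,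
        fun x hx => ((hK x).1 hx).elim (@p4 x) (@q4 x),
        fun x hx => ((hK x).1 hx).elim (p5 x) (q5 x)⟩
  have hl : ∀ c u' : V, snd c ⊆ K →
      Le1 s (pair (fst c ∪ ZFSet.sep (fun x => ¬ Forb s K x) u') K) c := fun c u' k => by
    rw [le1_iff, fst_pair, snd_pair]
    exact ⟨fun x hx => mem_union.2 (Or.inl hx), k, fun x hx hn k' =>
      (mem_sep.1 ((mem_union.1 hx).resolve_left hn)).2 (k'.mono k)⟩
  have hab : ∀ u u' : V, ∀ x ∈ u' ∪ ZFSet.sep (fun x => ¬ Forb s K x) u, ¬ Forb s K x →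
      x ∈ u ∪ ZFSet.sep (fun x => ¬ Forb s K x) u' := fun u u' x hx k =>
    mem_union.2 ((mem_union.1 hx).symm.imp (fun k' => (mem_sep.1 k').1) fun k' => mem_sep.2 ⟨k', k⟩)
  have ha := key _ _ p1 q1 p3 q3
  have hb := key _ _ q1 p1 q3 p3
  have h1 := hl p (fst q) fun x hx => (hK x).2 (Or.inl hx)
  have h2 := hl q (fst p) fun x hx => (hK x).2 (Or.inr hx)
  have h3 := hab (fst p) (fst q)
  have h4 := hab (fst q) (fst p)
  generalize fst p ∪ ZFSet.sep (fun x => ¬ Forb s K x) (fst q) = a at *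
  generalize fst q ∪ ZFSet.sep (fun x => ¬ Forb s K x) (fst p) = b at *
  have m := (IsZ.pair_mem_iff N).1 (IsZ.trans _ Q1_mem _ ha)
  haveI : In N a := ⟨m.1⟩
  haveI : In N K := ⟨m.2⟩
  haveI : In N b := ⟨((IsZ.pair_mem_iff N).1 (IsZ.trans _ Q1_mem _ hb)).1⟩
  haveI : In N s := ⟨hs⟩
  haveI : In N (Q1 N) := ⟨Q1_mem⟩
  have hR : rel (Q1 N) (Q1 N) (Sw1 s K a b) ∈ N := by unfold Sw1; exact memV_of N _
  refine ha_twin hc isPO_Q1 Q1_mem (le1_mem hs) hR (b3b_le.2 ⟨ha, hp, h1⟩) (b3b_le.2 ⟨hb, hq, h2⟩)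
    (fun r hr e => ?_) (fun t ht e => ?_) (fun r t k => ?_) fun r t r' t' k k' => ?_
  · obtain ⟨t, ht, k⟩ := sw1_ex hb h3 hr (b3b_le.1 e).2.2
    exact ⟨t, pair_mem_rel.2 ⟨hr, ht, k⟩⟩
  · obtain ⟨r, hr, k⟩ := sw1_ex ha h4 ht (b3b_le.1 e).2.2
    exact ⟨r, pair_mem_rel.2 ⟨hr, ht, k.symm⟩⟩
  · obtain ⟨a1, a2, a3⟩ := pair_mem_rel.1 k
    exact ⟨b3b_le.2 ⟨a1, ha, a3.1⟩, b3b_le.2 ⟨a2, hb, a3.2.1⟩⟩
  · obtain ⟨a1, a2, a3⟩ := pair_mem_rel.1 k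
    obtain ⟨b1, b2, b3⟩ := pair_mem_rel.1 k'
    exact ⟨fun e => b3b_le.2 ⟨b2, a2, a3.le b3 (b3b_le.1 e).2.2⟩,
      fun e => b3b_le.2 ⟨b1, a1, a3.symm.le b3.symm (b3b_le.1 e).2.2⟩⟩

end Pool.Agent.Lib.MP_f9eb18_lc.W
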