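import Pool.Agent.Lib.MP_f9eb18_lc.W.B2
import Pool.Agent.Lib.MP_f9eb18_lc.H.A

/-! # The first coding poset is homogeneous over its Cohen part -/

namespace Pool.Agent.Lib.MP_f9eb18_lc.W

open Ordinal ZFSet
set_option linter.style.haveILetI false
set_option linter.unusedVariables false
set_option synthInstance.maxSize 100000

/-- the back and forth relation: equal Cohen parts, equal entries outside the block `B` -/
def Sw0 (B c d r s : V) : Prop :=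
  Le0 r c ∧ Le0 s d ∧ cZ r = cZ s ∧ cO r = cO s ∧
    (∀ x ∈ cP r, fst x ∉ B → fst (fst x) ∉ cZ r → x ∈ cP s) ∧
    ∀ x ∈ cP s, fst x ∉ B → fst (fst x) ∉ cZ r → x ∈ cP r
theorem Sw0.symm {B c d r s : V} (h : Sw0 B c d r s) : Sw0 B d c s r :=
  ⟨h.2.1, h.1, h.2.2.1.symm, h.2.2.2.1.symm, h.2.2.1 ▸ h.2.2.2.2.2, h.2.2.1 ▸ h.2.2.2.2.1⟩
theorem Sw0.le {B c d r s r' s' : V} (h : Sw0 B c d r s) (h' : Sw0 B c d r' s')
    (hs : IsFn (cP s)) (hd : ∀ x ∈ B, ∃ y, pair x y ∈ cP d) (hl : Le0 r' r) : Le0 s' s := by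
  obtain ⟨-, a2, a3, a4, -, a6⟩ := h
  obtain ⟨-, b2, b3, b4, b5, -⟩ := h'
  have z : cZ s ⊆ cZ s' := a3 ▸ b3 ▸ hl.1
  refine ⟨z, a4 ▸ b4 ▸ hl.2.1, fun x hx k => ?_⟩
  by_cases e : fst x ∈ B
  · obtain ⟨y, hy⟩ := hd _ e
    have h1 := a2.2.2 _ hy (by rw [fst_pair]; exact fun k' => k (z k'))
    have h2 := b2.2.2 _ hy (by rw [fst_pair]; exact k)
    have h3 := hs.1 x hx
    have h4 : snd x = y := hs.2 (fst x) (snd x) y (h3 ▸ hx) h1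
    rw [h3, h4]
    exact h2
  · have k' : fst (fst x) ∉ cZ r' := b3 ▸ k
    exact b5 x (hl.2.2 x (a6 x hx e fun k'' => k' (hl.1 k'')) k') e k'

namespace PD
variable (D : PD)
/-- the block of positions over the sites in `S` below `n` -/
noncomputable def Bl (S n : V) : V := prod (prod S (insert D.ti D.A)) n
/-- a working part that fills the block -/
structure Full (S n Y y q : V) : Prop where
  val : D.Val q
  dm : ∀ x, x ∈ dom q ↔ x ∈ D.Bl S n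
  im1 : ∀ κ ∈ S, ∀ ξ ∈ n, app q (pair (pair κ D.ti) ξ) ∈ Y ∩ κ
  im2 : ∀ κ ∈ S, ∀ v ∈ Y ∩ κ, ∃ ξ ∈ n, app q (pair (pair κ D.ti) ξ) = v
  top1 : ∀ κ ∈ S, ∀ t ∈ D.A, ∃ ξ ∈ n, app q (pair (pair κ t) ξ) = y
  top2 : ∀ κ ∈ S, ∀ t ∈ D.A, ∀ ξ ∈ n,
    app q (pair (pair κ t) ξ) = y ∨ app q (pair (pair κ t) ξ) ∈ y

variable {D}
theorem mem_Bl {S n κ t ξ : V} :
    pair (pair κ t) ξ ∈ D.Bl S n ↔ (κ ∈ S ∧ t ∈ (insert D.ti D.A : V)) ∧ ξ ∈ n := by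
  rw [Bl, pair_mem_prod, pair_mem_prod]

variable [IsZFC D.U] (ok : D.Ok)
include ok

theorem swap_val {S n Y y a b p z s : V} (hn : n.IsOrdinal) (ha : D.Full S n Y y a)
    (hb : D.Full S n Y y b) (hp : D.Val p) (hz : ∀ κ, pair κ D.ti ∉ z)
    (hle : ∀ x ∈ a, fst (fst x) ∉ z → x ∈ p) (hs : s ∈ D.U)
    (ms : ∀ x, x ∈ s ↔ (x ∈ b ∧ fst (fst x) ∉ z) ∨ (x ∈ p ∧ fst x ∉ D.Bl S n ∧ fst (fst x) ∉ z)) :
    D.Val s := by
  have fs : IsFn s := by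
    refine ⟨fun x hx => ((ms x).1 hx).elim (fun k => hb.val.1.1 x k.1) fun k => hp.1.1 x k.1,
      fun x u u' h h' => ?_⟩
    rw [ms, fst_pair] at h h'
    rcases h with h | h <;> rcases h' with h' | h'
    · exact hb.val.1.2 x u u' h.1 h'.1
    · exact (h'.2.1 ((hb.dm x).1 (mem_dom.2 ⟨u, h.1⟩))).elim
    · exact (h.2.1 ((hb.dm x).1 (mem_dom.2 ⟨u', h'.1⟩))).elim
    · exact hp.1.2 x u u' h.1 h'.1
  have sb : ∀ i ξ, i ∉ z → pair i ξ ∈ D.Bl S n →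
      pair i ξ ∈ dom s ∧ app s (pair i ξ) = app b (pair i ξ) := fun i ξ h1 h2 =>
    hb.val.1.app_eq_of_mem fs ((hb.dm _).2 h2) ((ms _).2 (Or.inl
      ⟨hb.val.1.pair_app_mem ((hb.dm _).2 h2), by simpa using h1⟩))
  have pa : ∀ i ξ, i ∉ z → pair i ξ ∈ D.Bl S n →
      pair i ξ ∈ dom p ∧ app p (pair i ξ) = app a (pair i ξ) := fun i ξ h1 h2 =>
    ha.val.1.app_eq_of_mem hp.1 ((ha.dm _).2 h2)
      (hle _ (ha.val.1.pair_app_mem ((ha.dm _).2 h2)) (by simpa using h1))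
  have sp : ∀ x, x ∉ D.Bl S n → x ∈ dom s → x ∈ dom p ∧ app p x = app s x := fun x h1 h2 =>
    fs.app_eq_of_mem hp.1 h2 (((ms _).1 (fs.pair_app_mem h2)).elim
      (fun k => (h1 ((hb.dm x).1 (mem_dom.2 ⟨_, k.1⟩))).elim) fun k => k.1)
  have ps : ∀ i ξ, i ∉ z → pair i ξ ∉ D.Bl S n → pair i ξ ∈ dom p →
      pair i ξ ∈ dom s ∧ app s (pair i ξ) = app p (pair i ξ) := fun i ξ h1 h2 h3 =>
    hp.1.app_eq_of_mem fs h3 ((ms _).2 (Or.inr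
      ⟨hp.1.pair_app_mem h3, by simpa using h2, by simpa using h1⟩))
  refine val_glue ok fs ((hb.val.2.1.union hp.2.1).of_subset hs fun x hx =>
    mem_union.2 (((ms x).1 hx).imp And.left And.left))
    (fun x hx => ((ms x).1 hx).elim (fun k => ⟨b, hb.val, k.1⟩) fun k => ⟨p, hp, k.1⟩)
    fun κ hκ t ht m hm hc => ?_
  have iz : pair κ t ∉ z := by
    obtain ⟨ξ, hξ⟩ := hc.1
    simpa using ((ms _).1 (fs.pair_app_mem (hc.2 ξ hξ).1)).elim (fun k => k.2) fun k => k.2.2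
  have ht' : t ∈ (insert D.ti D.A : V) := mem_insert_of_mem _ ht
  have hmo : m.IsOrdinal := (isOrdinal_toZFSet _).mem hm
  by_cases hS : κ ∈ S
  swap
  · refine Or.inr ⟨p, hp, ⟨hc.1, fun ξ hξ => ?_⟩, fun x hx e => (ms x).2 (Or.inr ⟨hx, fun k => ?_,
      e ▸ hz κ⟩)⟩
    · obtain ⟨k1, k2⟩ := sp _ (fun k => hS (mem_Bl.1 k).1.1) (hc.2 ξ hξ).1
      exact ⟨k1, k2 ▸ (hc.2 ξ hξ).2⟩
    · obtain ⟨i, hi, ξ, -, e'⟩ := mem_prod.1 k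
      rw [e', fst_pair] at e
      exact hS (pair_mem_prod.1 (e ▸ hi)).1
  by_cases hmn : m ⊆ n
  · refine Or.inr ⟨b, hb.val, ⟨hc.1, fun ξ hξ => ?_⟩, fun x hx e => (ms x).2 (Or.inl
      ⟨hx, e ▸ hz κ⟩)⟩
    have k := mem_Bl.2 ⟨⟨hS, ht'⟩, hmn hξ⟩
    exact ⟨(hb.dm _).2 k, (sb _ _ iz k).2 ▸ (hc.2 ξ hξ).2⟩
  have hnm : n ⊆ m := (hn.subset_total hmo).resolve_right hmn
  have hy : y ∈ m := by
    obtain ⟨ξ, hξ, e⟩ := hb.top1 κ hS t ht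
    have k := (hc.2 ξ (hnm hξ)).2
    rwa [(sb _ _ iz (mem_Bl.2 ⟨⟨hS, ht'⟩, hξ⟩)).2, e] at k
  obtain ⟨h1, h2⟩ := hp.2.2.2 κ hκ t ht m hm ⟨hc.1, fun ξ hξ => by
    by_cases e : ξ ∈ n
    · obtain ⟨k1, k2⟩ := pa _ _ iz (mem_Bl.2 ⟨⟨hS, ht'⟩, e⟩)
      refine ⟨k1, ?_⟩
      rw [k2]
      exact (ha.top2 κ hS t ht ξ e).elim (fun k => k ▸ hy) fun k => hmo.mem_trans k hy
    · obtain ⟨k1, k2⟩ := sp _ (fun k => e (mem_Bl.1 k).2) (hc.2 ξ hξ).1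
      exact ⟨k1, k2 ▸ (hc.2 ξ hξ).2⟩⟩
  have bl : ∀ ξ ∈ n, pair (pair κ D.ti) ξ ∈ D.Bl S n := fun ξ e =>
    mem_Bl.2 ⟨⟨hS, mem_insert _ _⟩, e⟩
  have out : ∀ ξ ∈ m, ξ ∉ n → pair (pair κ D.ti) ξ ∈ dom s ∧
      app s (pair (pair κ D.ti) ξ) = app p (pair (pair κ D.ti) ξ) := fun ξ hξ e =>
    ps _ _ (hz κ) (fun k => e (mem_Bl.1 k).2) (h1 ξ hξ)
  refine Or.inl ⟨fun ξ hξ => ?_, ?_⟩
  · by_cases e : ξ ∈ n
    · exact (sb _ _ (hz κ) (bl ξ e)).1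
    · exact (out ξ hξ e).1
  have e1 : pH p (pair κ D.ti) m =
      (ot (img (fun ξ => app p (pair (pair κ D.ti) ξ)) m)).toZFSet :=
    congrArg toZFSet (hgt_pull (fun ξ hξ => mem_img.2 ⟨ξ, hξ, rfl⟩) fun v hv => mem_img.1 hv)
  have e2 : pH s (pair κ D.ti) m =
      (ot (img (fun ξ => app p (pair (pair κ D.ti) ξ)) m)).toZFSet := by
    refine congrArg toZFSet (hgt_pull (fun ξ hξ => ?_) fun v hv => ?_)
    · by_cases e : ξ ∈ n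
      · obtain ⟨ζ, k1, k2⟩ := ha.im2 κ hS _ (hb.im1 κ hS ξ e)
        exact mem_img.2 ⟨ζ, hnm k1, by
          rw [(pa _ _ (hz κ) (bl ζ k1)).2, k2, (sb _ _ (hz κ) (bl ξ e)).2]⟩
      · exact mem_img.2 ⟨ξ, hξ, (out ξ hξ e).2.symm⟩
    · obtain ⟨ξ, hξ, rfl⟩ := mem_img.1 hv
      by_cases e : ξ ∈ n
      · obtain ⟨ζ, k1, k2⟩ := hb.im2 κ hS _ (ha.im1 κ hS ξ e)
        exact ⟨ζ, hnm k1, by rw [(sb _ _ (hz κ) (bl ζ k1)).2, k2, (pa _ _ (hz κ) (bl ξ e)).2]⟩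
      · exact ⟨ξ, hξ, (out ξ hξ e).2⟩
  rwa [e2, ← e1]

theorem Bl_ctbl {S n : V} (hS : Ctbl D.U S) (hn : Ctbl D.U n) : Ctbl D.U (D.Bl S n) :=
  (hS.prod ((ctbl_omega.of_subset ok.A_mem ok.A_sub).insert
    (IsZ.trans _ IsZ.omega _ ok.ti_mem))).prod hn

theorem sw0_ex {S n Y y a b z o r : V} (hn : n.IsOrdinal) (hB : D.Bl S n ∈ D.U)
    (ha : D.Full S n Y y a) (hb : D.Full S n Y y b) (hr : r ∈ D.P) (hl : Le0 r (mkC a z o)) :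
    ∃ s ∈ D.P, Sw0 (D.Bl S n) (mkC a z o) (mkC b z o) r s := by
  obtain ⟨-, rv, rr⟩ := (mem_P ok).1 hr
  have hl' := hl
  simp only [Le0, cZ_mkC, cO_mkC, cP_mkC] at hl'
  obtain ⟨s, hs, ms⟩ : ∃ s ∈ D.U, ∀ x, x ∈ s ↔ (x ∈ b ∧ fst (fst x) ∉ cZ r) ∨
      (x ∈ cP r ∧ fst x ∉ D.Bl S n ∧ fst (fst x) ∉ cZ r) := by
    haveI : In D.U r := ⟨(b2c_P hr).1⟩
    haveI : In D.U b := ⟨InjIn.mem_left hb.val.2.1⟩
    haveI : In D.U (D.Bl S n) := ⟨hB⟩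
    exact ⟨_, memV_of D.U (ZFSet.sep (fun x => fst (fst x) ∉ cZ r) b ∪
      ZFSet.sep (fun x => fst x ∉ D.Bl S n ∧ fst (fst x) ∉ cZ r) (cP r)), fun x => by
        rw [mem_union, mem_sep, mem_sep]⟩
  have sv := swap_val ok hn ha hb rv (fun κ => b2b_ti ok rr) hl'.2.2 hs ms
  refine ⟨mkC s (cZ r) (cO r), (mkC_mem ok).2 ⟨sv, rr⟩, hl, ?_⟩
  simp only [Le0, cZ_mkC, cO_mkC, cP_mkC]
  refine ⟨⟨hl'.1, hl'.2.1, fun x hx k => (ms x).2 (Or.inl ⟨hx, k⟩)⟩, trivial, trivial,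
    fun x hx k k' => (ms x).2 (Or.inr ⟨hx, k, k'⟩), fun x hx k _ => ?_⟩
  refine ((ms x).1 hx).elim (fun h => (k ((hb.dm _).1 (mem_dom.2 ⟨snd x, ?_⟩))).elim) fun h => h.1
  exact hb.val.1.1 x h.1 ▸ h.1

theorem fill {S Y G p : V} {ν : Ordinal.{0}} (hS : Ctbl D.U S) (hSW : S ⊆ dom D.𝒲)
    (hν : ν < om1 D.U) (hY : Y ∈ D.U) (hG : G ∈ D.U) (h0 : (∅ : V) ∈ Y) (hp : D.Val p)
    (hd : ∀ x ∈ dom p, fst (fst x) ∈ S ∧ (snd x).rank < ν ∧ app p x ∈ Y ∧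
      (app p x ∈ D.w → (app p x).rank < ν))
    (hG' : ∀ v ∈ Y, ∃ k : ℕ, app G (ν + k).toZFSet = v) :
    ∃ q, p ⊆ q ∧ D.Full S (ν + ω).toZFSet Y (ν + ω).toZFSet q := by
  classical
  have hn : ν + ω < om1 D.U := (om1_addClosed D.U hν (omega_lt_om1 _)).1
  have hnw : (ν + ω).toZFSet ∈ D.w := toZFSet_mem_toZFSet_iff.2 hn
  have hνn : ν < ν + ω := lt_add_of_pos_right _ omega0_pos
  have hB := Bl_ctbl ok hS (lt_om1_iff.1 hn)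
  have hw : ∀ κ ∈ dom D.𝒲, D.w ⊆ κ := fun κ hκ =>
    (ok.sites.ms κ hκ).1.subset_of_mem (ok.sites.om κ hκ)
  have h0w : (∅ : V) ∈ D.w := by
    rw [← toZFSet_zero]
    exact toZFSet_mem_toZFSet_iff.2 (isSuccLimit_om1 D.U).pos
  generalize hy : (ν + ω).toZFSet = y at hnw hB ⊢
  have my : ∀ x ∈ D.w, x.rank < ν + ω → x ∈ y := fun x hx k => by
    obtain ⟨ξ, -, rfl⟩ := mem_toZFSet_iff.1 hx
    rw [rank_toZFSet] at k
    exact hy ▸ toZFSet_mem_toZFSet_iff.2 k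
  have fr : ∀ (i : V) (k : ℕ), pair i (ν + k).toZFSet ∉ dom p := fun i k h => by
    have := (hd _ h).2.1
    rw [snd_pair, rank_toZFSet] at this
    exact this.not_ge le_self_add
  have fn : ∀ k : ℕ, (ν + k).toZFSet ∈ y := fun k =>
    hy ▸ toZFSet_mem_toZFSet_iff.2 (add_lt_add_right (natCast_lt_omega0 k) ν)
  obtain ⟨Fv, hF, f1, f2⟩ : ∃ Fv : V → V, UF (loc D.U) (fun _ v => Fv (vr v 0)) ∧
      (∀ κ ξ, Fv (pair (pair κ D.ti) ξ) = if app G ξ ∈ Y ∩ κ then app G ξ else ∅) ∧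
      ∀ κ, ∀ t ∈ D.A, ∀ ξ, Fv (pair (pair κ t) ξ) = y := by
    haveI : In D.U G := ⟨hG⟩
    haveI : In D.U Y := ⟨hY⟩
    haveI : In D.U y := ⟨IsZ.trans _ (om1_mem D.U) _ hnw⟩
    haveI : In D.U D.ti := ⟨IsZ.trans _ IsZ.omega _ ok.ti_mem⟩
    refine ⟨fun x => if snd (fst x) = D.ti then
      (if app G (snd x) ∈ Y ∩ fst (fst x) then app G (snd x) else ∅) else y, inferInstance,
      fun κ ξ => by simp, fun κ t ht ξ => ?_⟩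
    simp only [fst_pair, snd_pair]
    exact if_neg fun e : t = D.ti => ok.ti_not (e ▸ ht)
  obtain ⟨q, q1, mq⟩ : ∃ q, Ctbl D.U q ∧ ∀ x u, (pair x u ∈ q ↔ pair x u ∈ p ∨
      ((x ∈ D.Bl S y ∧ x ∉ dom p) ∧ u = Fv x)) ∧
      (x ∈ q → x = pair (fst x) (snd x)) := by
    haveI : In D.U p := ⟨InjIn.mem_left hp.2.1⟩
    haveI : In D.U (D.Bl S y) := ⟨InjIn.mem_left hB⟩
    refine ⟨p ∪ lam (D.Bl S y \ dom p) Fv, hp.2.1.union (z5b_img hB (fun x => pair x (Fv x))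
      (memV_of D.U _) fun x hx => ?_), fun x u => ⟨?_, fun hx => ?_⟩⟩
    · obtain ⟨a, ha, e⟩ := mem_lam.1 hx
      exact ⟨a, (mem_sdiff.1 ha).1, e⟩
    · rw [mem_union, pair_mem_lam, mem_sdiff]
    · exact (mem_union.1 hx).elim (hp.1.1 x) ((isFn_lam _ _).1 x)
  have q4 : IsFn q := by
    refine ⟨fun x hx => (mq x ∅).2 hx, fun x u u' h1 h2 => ?_⟩
    rcases (mq x u).1.1 h1 with a | a <;> rcases (mq x u').1.1 h2 with b | b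
    · exact hp.1.2 x u u' a b
    · exact (b.1.2 (mem_dom.2 ⟨u, a⟩)).elim
    · exact (a.1.2 (mem_dom.2 ⟨u', b⟩)).elim
    · exact a.2.trans b.2.symm
  have q5 : p ⊆ q := fun x hx => by
    have e := hp.1.1 x hx
    rw [e] at hx ⊢
    exact (mq _ _).1.2 (Or.inl hx)
  have old : ∀ x ∈ dom p, x ∈ dom q ∧ app q x = app p x := fun x hx =>
    hp.1.app_eq_of_mem q4 hx (q5 (hp.1.pair_app_mem hx))
  have new : ∀ x ∈ D.Bl S y, x ∉ dom p → x ∈ dom q ∧ app q x = Fv x := fun x hx k =>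
    have h := (mq x _).1.2 (Or.inr ⟨⟨hx, k⟩, rfl⟩)
    ⟨mem_dom.2 ⟨_, h⟩, q4.app_eq h⟩
  have pB : ∀ x ∈ dom p, x ∈ D.Bl S y := fun x hx => by
    obtain ⟨k1, k2, -⟩ := hd x hx
    obtain ⟨κ, -, t, ht, ξ, hξ, rfl, -⟩ := hp.2.2.1 x hx
    simp only [fst_pair, snd_pair] at k1 k2
    exact mem_Bl.2 ⟨⟨k1, ht⟩, my ξ hξ (k2.trans hνn)⟩
  have dq : ∀ x, x ∈ dom q ↔ x ∈ D.Bl S y := fun x => by
    refine ⟨fun hx => ?_, fun hx => ?_⟩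
    · obtain ⟨u, hu⟩ := mem_dom.1 hx
      exact ((mq x u).1.1 hu).elim (fun k => pB x (mem_dom.2 ⟨u, k⟩)) fun k => k.1.1
    · by_cases k : x ∈ dom p
      · exact (old x k).1
      · exact (new x hx k).1
  have im : ∀ κ ∈ S, ∀ ξ, Fv (pair (pair κ D.ti) ξ) ∈ Y ∩ κ := fun κ hκ ξ => by
    rw [f1]
    split_ifs with k
    · exact k
    · exact mem_inter.2 ⟨h0, hw κ (hSW hκ) h0w⟩
  refine ⟨q, q5, ⟨q4, q1, fun x hx => ?_, fun κ hκ t ht m hm hc => ?_⟩, dq, fun κ hκ ξ hξ => ?_,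
    fun κ hκ v hv => ?_, fun κ hκ t ht => ?_, fun κ hκ t ht ξ hξ => ?_⟩
  · by_cases k : x ∈ dom p
    · exact (old x k).2 ▸ hp.2.2.1 x k
    · have hx' := (dq x).1 hx
      obtain ⟨i, hi, ξ, hξ, rfl⟩ := mem_prod.1 hx'
      obtain ⟨κ, hκ, t, ht, rfl⟩ := mem_prod.1 hi
      refine ⟨κ, hSW hκ, t, ht, ξ, (isOrdinal_toZFSet _).mem_trans hξ hnw, rfl, ?_⟩
      rw [(new _ hx' k).2]
      rcases mem_insert_iff.1 ht with rfl | ht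
      · exact ⟨(mem_inter.1 (im κ hκ ξ)).2, fun k => (ok.ti_not k).elim⟩
      · rw [f2 κ t ht]
        exact ⟨hw κ (hSW hκ) hnw, fun _ => hnw⟩
  · refine b2a_keep hp q4 hκ ht hm ⟨hc.1, fun ξ hξ => ?_⟩ fun x hx _ => q5 hx
    obtain ⟨b1, b2⟩ := hc.2 ξ hξ
    by_cases k : pair (pair κ t) ξ ∈ dom p
    · exact ⟨k, (old _ k).2 ▸ b2⟩
    · rw [(new _ ((dq _).1 b1) k).2, f2 κ t ht] at b2
      exact (mem_irrefl y (mem_Bl.1 ((dq _).1 (hc.2 y b2).1)).2).elim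
  · by_cases k : pair (pair κ D.ti) ξ ∈ dom p
    · rw [(old _ k).2]
      obtain ⟨κ', -, t', -, ξ', -, e, a, -⟩ := hp.2.2.1 _ k
      obtain rfl : κ = κ' := (pair_inj.1 (pair_inj.1 e).1).1
      exact mem_inter.2 ⟨(hd _ k).2.2.1, a⟩
    · rw [(new _ (mem_Bl.2 ⟨⟨hκ, mem_insert _ _⟩, hξ⟩) k).2]
      exact im κ hκ ξ
  · obtain ⟨k, hk⟩ := hG' v (mem_inter.1 hv).1
    refine ⟨_, fn k, ?_⟩
    rw [(new _ (mem_Bl.2 ⟨⟨hκ, mem_insert _ _⟩, fn k⟩) (fr _ k)).2, f1, hk, if_pos hv]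
  · exact ⟨_, fn 0, by
      rw [(new _ (mem_Bl.2 ⟨⟨hκ, mem_insert_of_mem _ ht⟩, fn 0⟩) (fr _ 0)).2, f2 κ t ht]⟩
  · by_cases k : pair (pair κ t) ξ ∈ dom p
    · rw [(old _ k).2]
      obtain ⟨κ', -, t', -, ξ', -, e, -, a⟩ := hp.2.2.1 _ k
      obtain rfl : t = t' := (pair_inj.1 (pair_inj.1 e).1).2
      exact Or.inr (my _ (a ht) (((hd _ k).2.2.2 (a ht)).trans hνn))
    · exact Or.inl (by rw [(new _ (mem_Bl.2 ⟨⟨hκ, mem_insert_of_mem _ ht⟩, hξ⟩) k).2, f2 κ t ht])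

/-- conditions with compatible Cohen parts lie in generic filters with the same extension -/
theorem twin_P (hc : D.U.Countable) {p q : V} (hp : p ∈ D.P) (hq : q ∈ D.P)
    (h1 : ∀ i ∈ cZ p, i ∉ cO q) (h2 : ∀ i ∈ cZ q, i ∉ cO p) : Twin D.U D.P (le0 D.P) p q := by
  classical
  obtain ⟨-, pv, pr⟩ := (mem_P ok).1 hp
  obtain ⟨-, qv, qr⟩ := (mem_P ok).1 hq
  have hR : D.Rr (cZ p ∪ cZ q) (cO p ∪ cO q) := by
    refine ⟨(pr.1.union qr.1).subset fun i hi => mem_union.1 hi,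
      (pr.2.1.union qr.2.1).subset fun i hi => mem_union.1 hi,
      fun i hi => (mem_union.1 hi).elim (fun h => pr.2.2.1 h) fun h => qr.2.2.1 h,
      fun i hi => (mem_union.1 hi).elim (fun h => pr.2.2.2.1 h) fun h => qr.2.2.2.1 h,
      fun i hi hi' => ?_⟩
    rcases mem_union.1 hi with h | h <;> rcases mem_union.1 hi' with h' | h'
    · exact pr.2.2.2.2 i h h'
    · exact h1 i h h'
    · exact h2 i h h'
    · exact qr.2.2.2.2 i h h'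
  obtain ⟨u, uc, u1, u2, u3⟩ : ∃ u, Ctbl D.U u ∧ cP p ⊆ u ∧ cP q ⊆ u ∧
      ∀ x ∈ u, fst (fst (fst x)) ∈ dom D.𝒲 ∧ snd (fst x) ∈ D.w := by
    have key : ∀ r, D.Val r → ∀ x ∈ r, fst (fst (fst x)) ∈ dom D.𝒲 ∧ snd (fst x) ∈ D.w :=
      fun r hr x hx => by
        obtain ⟨κ, hκ, t, -, ξ, hξ, e, -⟩ :=
          hr.2.2.1 (fst x) (mem_dom.2 ⟨snd x, hr.1.1 x hx ▸ hx⟩)
        rw [e]
        simpa using ⟨hκ, hξ⟩
    exact ⟨_, pv.2.1.union qv.2.1, fun x hx => mem_union.2 (Or.inl hx),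
      fun x hx => mem_union.2 (Or.inr hx),
      fun x hx => (mem_union.1 hx).elim (key _ pv x) (key _ qv x)⟩
  haveI : In D.U u := ⟨InjIn.mem_left uc⟩
  haveI : In D.U D.w := ⟨om1_mem D.U⟩
  have hS : Ctbl D.U (img (fun x => fst (fst (fst x))) u) :=
    z5b_img uc (fun x => fst (fst (fst x))) (memV_of D.U _) fun _ => mem_img.1
  have hY : Ctbl D.U (insert ∅ (img (fun x => snd x) u)) :=
    (z5b_img uc (fun x => snd x) (memV_of D.U _) fun _ => mem_img.1).insert (IsZ.empty_mem _)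
  obtain ⟨ν, hν, hb⟩ : ∃ ν < om1 D.U, ∀ x ∈ u, (snd (fst x)).rank < ν ∧
      (snd x ∈ D.w → (snd x).rank < ν) := by
    have k := b0c_bdd uc (fun x => max (snd (fst x)).rank
      (if snd x ∈ D.w then (snd x).rank else 0)) fun x hx => max_lt (z5c_mem (u3 x hx).2) (by
        split_ifs with e
        · exact z5c_mem e
        · exact (isSuccLimit_om1 D.U).pos)
    refine ⟨_, (isSuccLimit_om1 D.U).add_one_lt k, fun x hx => ?_⟩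
    have k' := (le_osup (fun x => max (snd (fst x)).rank
      (if snd x ∈ D.w then (snd x).rank else 0)) hx).trans_lt (lt_add_one _)
    refine ⟨(le_max_left _ _).trans_lt k', fun e => ?_⟩
    rw [if_pos e] at k'
    exact (le_max_right _ _).trans_lt k'
  obtain ⟨g, g1, -, g2⟩ := hY.exists_enum ((nonempty_def _).2 ⟨_, mem_insert _ _⟩)
  obtain ⟨G, hG, hG'⟩ : ∃ G ∈ D.U, ∀ k : ℕ, app G (ν + k).toZFSet = g k := by
    haveI : In D.U (sqN g) := ⟨g1⟩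
    haveI : In D.U ν := ⟨IsZ.ord_mem_of_le _ (om1_mem D.U) hν.le⟩
    refine ⟨_, memV_of D.U (img (fun k => pair (ν + k.rank).toZFSet (app (sqN g) k)) omegaZ),
      fun k => app_eq_of_unique (mem_img.2 ⟨natZ k, natZ_mem_omegaZ k, ?_⟩) fun v hv => ?_⟩
    · rw [rank_natZ, app_sqN, enc_V]
    · obtain ⟨x, hx, e⟩ := mem_img.1 hv
      obtain ⟨j, rfl⟩ := mem_omegaZ.1 hx
      rw [rank_natZ, app_sqN, enc_V, pair_inj] at e
      obtain rfl : j = k := Nat.cast_injective (add_left_cancel (toZFSet_injective e.1))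
      exact e.2.symm
  have key : ∀ r, D.Val r → r ⊆ u → ∃ a, r ⊆ a ∧ D.Full (img (fun x => fst (fst (fst x))) u)
      (ν + ω).toZFSet (insert ∅ (img (fun x => snd x) u)) (ν + ω).toZFSet a := fun r hr hu =>
    fill ok hS (fun x hx => by
        obtain ⟨a, ha, rfl⟩ := mem_img.1 hx
        exact (u3 a ha).1) hν (InjIn.mem_left hY) hG (mem_insert _ _) hr (fun x hx => by
        have k := hu (hr.1.pair_app_mem hx)
        have k' := hb _ k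
        simp only [fst_pair, snd_pair] at k'
        exact ⟨mem_img.2 ⟨_, k, by simp⟩, k'.1,
          mem_insert_of_mem _ (mem_img.2 ⟨_, k, snd_pair _ _⟩), k'.2⟩) fun v hv =>
      let ⟨k, hk⟩ := g2 v hv; ⟨k, (hG' k).trans hk⟩
  obtain ⟨a, a1, a2⟩ := key _ pv u1
  obtain ⟨b, b1, b2⟩ := key _ qv u2
  have hB := InjIn.mem_left
    (Bl_ctbl ok hS (lt_om1_iff.1 (om1_addClosed D.U hν (omega_lt_om1 _)).1))
  have hn := isOrdinal_toZFSet (ν + ω)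
  generalize img (fun x => fst (fst (fst x))) u = S at *
  generalize insert ∅ (img (fun x => snd x) u) = Y at *
  generalize (ν + ω).toZFSet = n at *
  have ha := (mkC_mem ok).2 ⟨a2.val, hR⟩
  have hb := (mkC_mem ok).2 ⟨b2.val, hR⟩
  have l1 : Le0 (mkC a (cZ p ∪ cZ q) (cO p ∪ cO q)) p := by
    simp only [Le0, cZ_mkC, cO_mkC, cP_mkC]
    exact ⟨fun i h => mem_union.2 (Or.inl h), fun i h => mem_union.2 (Or.inl h), fun x h _ => a1 h⟩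
  have l2 : Le0 (mkC b (cZ p ∪ cZ q) (cO p ∪ cO q)) q := by
    simp only [Le0, cZ_mkC, cO_mkC, cP_mkC]
    exact ⟨fun i h => mem_union.2 (Or.inr h), fun i h => mem_union.2 (Or.inr h), fun x h _ => b1 h⟩
  generalize cZ p ∪ cZ q = z at *
  generalize cO p ∪ cO q = o at *
  haveI : In D.U (mkC a z o) := ⟨(b2c_P ha).1⟩
  haveI : In D.U (mkC b z o) := ⟨(b2c_P hb).1⟩
  haveI : In D.U (D.Bl S n) := ⟨hB⟩
  haveI : In D.U D.P := ⟨P_mem ok⟩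
  have hRel : rel D.P D.P (Sw0 (D.Bl S n) (mkC a z o) (mkC b z o)) ∈ D.U := by
    unfold Sw0; exact memV_of D.U _
  have tot : ∀ c, D.Full S n Y n c → ∀ x ∈ D.Bl S n, ∃ y, pair x y ∈ cP (mkC c z o) :=
    fun c k x hx => by rw [cP_mkC]; exact mem_dom.1 ((k.dm x).2 hx)
  refine ha_twin hc (isPO ok) (P_mem ok) (le_mem ok) hRel (b2b_le.2 ⟨ha, hp, l1⟩)
    (b2b_le.2 ⟨hb, hq, l2⟩) (fun r hr e => ?_) (fun t ht e => ?_) (fun r t k => ?_)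
    fun r t r' t' k k' => ?_
  · obtain ⟨t, ht, k⟩ := sw0_ex ok hn hB a2 b2 hr (b2b_le.1 e).2.2
    exact ⟨t, pair_mem_rel.2 ⟨hr, ht, k⟩⟩
  · obtain ⟨r, hr, k⟩ := sw0_ex ok hn hB b2 a2 ht (b2b_le.1 e).2.2
    exact ⟨r, pair_mem_rel.2 ⟨hr, ht, k.symm⟩⟩
  · obtain ⟨c1, c2, c3⟩ := pair_mem_rel.1 k
    exact ⟨b2b_le.2 ⟨c1, ha, c3.1⟩, b2b_le.2 ⟨c2, hb, c3.2.1⟩⟩
  · obtain ⟨c1, c2, c3⟩ := pair_mem_rel.1 k
    obtain ⟨d1, d2, d3⟩ := pair_mem_rel.1 k'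
    exact ⟨fun e => b2b_le.2 ⟨d2, c2, c3.le d3 ((mem_P ok).1 c2).2.1.1 (tot b b2) (b2b_le.1 e).2.2⟩,
      fun e => b2b_le.2 ⟨d1, c1,
        c3.symm.le d3.symm ((mem_P ok).1 c1).2.1.1 (tot a a2) (b2b_le.1 e).2.2⟩⟩

end PD

end Pool.Agent.Lib.MP_f9eb18_lc.W
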