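import Pool.Agent.Lib.MP_f9eb18_lc.W.C1
import Pool.Agent.Lib.MP_f9eb18_lc.H.B

/-! # Elements of `C^2(omega)` are definable; definable functions are covered by the ground model -/

namespace Pool.Agent.Lib.MP_f9eb18_lc.W

open Ordinal ZFSet
set_option linter.style.haveILetI false
set_option linter.unusedVariables false
set_option synthInstance.maxSize 100000

theorem uf_par {F : Fr} {α} [Enc α] {c : α} (hc : enc c ∈ F.C) : UF F (fun _ _ => c) :=
  ⟨fun M hM _ _ => F.hC M hM hc, UD.par hc⟩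

/-- all models of ZFC above `U`, parameters from `U` -/
def ov (U : Set V) [IsZ U] : Fr :=
  ⟨fun M => IsZFC M ∧ U ⊆ M, U, fun _ h => h.1.toIsZ, fun _ h => h.2, IsZ.empty_mem U⟩
instance (U : Set V) [IsZ U] : (ov U).P := ⟨fun _ h => h.1⟩
/-- the model `N`, parameters from `U` -/
def par (U N : Set V) [IsZ U] [h : IsZ N] (hs : U ⊆ N) : Fr :=
  ⟨fun M => M = N, U, fun _ e => e ▸ h, fun _ e => e ▸ hs, IsZ.empty_mem U⟩
instance (U N : Set V) [IsZ U] [h : IsZFC N] (hs : U ⊆ N) : (par U N hs).P := ⟨fun _ e => e ▸ h⟩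

/-- every element of `C2N N` is definable in `N` from ordinals -/
theorem c2_uf {F : Fr} [F.P] {N : Set V} [IsZFC N] (hK : ∀ M, F.K M → M = N)
    (hC : ∀ o : Ordinal.{0}, o.toZFSet ∈ N → o.toZFSet ∈ F.C) {x : V} (h : C2N N x) :
    UF F (fun _ _ => x) := by
  have hs : ∀ ν : Ordinal.{0}, ν.toZFSet ∈ N → UF F (fun _ _ => stageN N ν) := fun ν hν =>
    haveI : UF F (fun _ _ => ν) := uf_par (hC ν hν)
    (inferInstance : UF F (fun M _ => stageN M ν)).congr fun M hM _ _ => by rw [hK M hM]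
  obtain ⟨ν, hν, hx⟩ := h
  change x ∈ JN N ν at hx
  induction ν using WellFoundedLT.induction generalizing x with
  | ind ν ih =>
  obtain ⟨a, h1, h2⟩ := mem_JN.1 hx
  have ha := IsZ.ord_mem_of_le N hν h1.le
  rw [JN_succ, mem_rudCl] at h2
  obtain ⟨n, hn⟩ := h2
  haveI : UF F (fun _ _ => TN N (a + 1)) := haveI := hs _ (succ_memN ha); UF.p2
  clear hx
  induction n generalizing x with
  | zero =>
    rcases mem_insert_iff.1 hn with rfl | k
    · exact haveI := hs _ ha; UF.p1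
    · exact ih a h1 ha k
  | succ n ih' =>
    rw [Function.iterate_succ_apply', rudStep, mem_range] at hn
    obtain ⟨⟨t, l⟩, rfl⟩ := hn
    haveI : UV F (fun _ _ => env (l.map Subtype.val)) :=
      ⟨fun i => MP_f9eb18_lc.env_mem (p := fun y => UF F (fun _ _ => y)) UF.empty
        (fun y hy => ih' hy) l i⟩
    exact uf_eval t

/-- check names for two arguments and the parameters `c` -/
noncomputable def nm (P : V) (c : ℕ → V) (x y : V) : ℕ → V :=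
  fun i => chk P (mrg (cons x fun _ => y) c i)
theorem uv_nm {F : Fr} {c : ℕ → V} (hc : ∀ i, c i ∈ F.C) :
    ∀ (P a b : Set V → (ℕ → V) → V) [UF F P] [UF F a] [UF F b],
      UV F (fun M v => nm (P M v) c (a M v) (b M v)) := fun P a b _ ha hb => ⟨fun i => by
  haveI : UF F (fun M v => mrg (cons (a M v) fun _ => b M v) c i) := by
    unfold mrg
    split_ifs
    · cases i / 2
      · exact ha
      · exact hb
    · exact uf_par (hc _)
  exact uf_chk⟩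

/-- some condition of the almost disjoint coding over `M` forces `φ` -/
def RQ (s : V) (φ : Fo) (c : ℕ → V) (M : Set V) (x y : V) : Prop :=
  ∃ p ∈ Q1 M, Frc M (Q1 M) (le1 M s) φ p (nm (Q1 M) c x y)
theorem ud_RQ {F : Fr} [F.P] {s : V} (hs : s ∈ F.C) (φ : Fo) {c : ℕ → V} (hc : ∀ i, c i ∈ F.C) :
    ∀ (a b : Set V → (ℕ → V) → V) [UF F a] [UF F b],
      UD F (fun M v => RQ s φ c M (a M v) (b M v)) := fun a b _ _ => by
  haveI : UF F (fun _ _ => s) := uf_par hs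
  haveI : HasS F s := ⟨UF.app⟩
  haveI : UF F (fun M _ => Q1 M) := by unfold Q1 relS; infer_instance
  haveI : UF F (fun M _ => le1 M s) := by unfold le1; infer_instance
  have := uv_nm (F := F) hc
  have := UF.lift (F := F) a; have := UF.lift (F := F) b
  unfold RQ; infer_instance

/-- covering of the functions that are definable in `N` from parameters in `U` -/
def DCover (U N : Set V) : Prop :=
  ∀ (f : V) (φ : Fo) (c : ℕ → V), (∀ i, c i ∈ U) →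
    (∀ v, (∀ i, v i ∈ N) → (app f (vr v 0) = vr v 1 ↔ Sat1 N φ (mrg v c))) →
    ∀ a ∈ U, ∀ b ∈ U, ∃ K ∈ U, ∀ x ∈ a, Ctbl U (app K x) ∧ (app f x ∈ b → app f x ∈ app K x)

namespace PD
variable {D : PD} [IsZFC D.U] (ok : D.Ok)
include ok

/-- decisions that only depend on the Cohen part are countably covered -/
theorem cover_cohen {Δ a b : V} (hΔ : Δ ∈ D.U) (ha : a ∈ D.U) (hb : b ∈ D.U)
    (h : ∀ p ∈ D.P, ∀ q ∈ D.P, ∀ x y y', pair p (pair x y) ∈ Δ → pair q (pair x y') ∈ Δ →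
      (∀ i ∈ cZ p, i ∉ cO q) → (∀ i ∈ cZ q, i ∉ cO p) → y = y') :
    ∃ K ∈ D.U, ∀ x ∈ a, Ctbl D.U (app K x) ∧
      ∀ p ∈ D.P, ∀ y ∈ b, pair p (pair x y) ∈ Δ → y ∈ app K x := by
  haveI : In D.U D.P := ⟨P_mem ok⟩
  haveI : In D.U Δ := ⟨hΔ⟩
  haveI : In D.U b := ⟨hb⟩
  obtain ⟨K, k1, -, -, k2⟩ := choice_fn D.U (fun x Y => Ctbl D.U Y ∧ ∀ p ∈ D.P, ∀ y ∈ b,
    pair p (pair x y) ∈ Δ → y ∈ Y) ha fun x hx => by
      have t : pair D.P (pair Δ x) ∈ D.U := by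
        simp only [IsZ.pair_mem_iff D.U]
        exact ⟨P_mem ok, hΔ, IsZ.trans _ ha _ hx⟩
      obtain ⟨H, H1, H2, -, H3⟩ := exists_H D.U t
      obtain ⟨X, X1, X2, X0, X3, X4⟩ := exists_ctbl_hull D.U H1
        (Y := {pair D.P (pair Δ x)}) (ctbl_of_finite (by simp) (by simpa using t))
        fun z hz => mem_singleton.1 hz ▸ H3
      have X5 := X2 (mem_singleton.2 rfl)
      simp only [X3.pair_mem_iff] at X5
      have hne : X.Nonempty := (nonempty_def X).2 ⟨_, X0⟩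
      refine ⟨X, X1, X4, fun p hp y _ hy => ?_⟩
      obtain ⟨-, -, pr⟩ := (mem_P ok).1 hp
      obtain ⟨e, e1, e2, e3, e4, e5, e6⟩ := X3.ex4 (fun e Δ P x r => e ∈ Δ ∧ fst e ∈ P ∧
          e = pair (fst e) (pair x (snd (snd e))) ∧ fst r ⊆ cZ (fst e) ∧ snd r ⊆ cO (fst e))
        X5.2.1 X5.1 X5.2.2 (X3.pair_mem
          (X3.finite_mem hne (s := cZ p ∩ X) (pr.1.subset fun i hi => (mem_inter.1 hi).1)
            fun i hi => (mem_inter.1 hi).2)
          (X3.finite_mem hne (s := cO p ∩ X) (pr.2.1.subset fun i hi => (mem_inter.1 hi).1)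
            fun i hi => (mem_inter.1 hi).2))
        ⟨_, IsZ.trans (M := (H : Set V)) _ (X3.subset X5.2.1) _ hy, hy, by
          simp only [fst_pair, snd_pair]
          exact ⟨hp, trivial, fun i hi => (mem_inter.1 hi).1, fun i hi => (mem_inter.1 hi).1⟩⟩
      rw [fst_pair] at e5
      rw [snd_pair] at e6
      obtain ⟨-, -, qr⟩ := (mem_P ok).1 e3
      have zX := b3b_fin X3 (X3.tm1 cZ (X3.fst_mem e1)) qr.1
      have oX := b3b_fin X3 (X3.tm1 cO (X3.fst_mem e1)) qr.2.1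
      rw [h p hp _ e3 x y _ hy (e4 ▸ e2)
        (fun i k k' => qr.2.2.2.2 i (e5 (mem_inter.2 ⟨k, oX k'⟩)) k')
        fun i k k' => qr.2.2.2.2 i k (e6 (mem_inter.2 ⟨k', zX k⟩))]
      exact X3.snd_mem (X3.snd_mem e1)
  exact ⟨K, k1, k2⟩

theorem dcover (hc : D.U.Countable) {G s G₁ : V} (hG : Gen D.U D.P (le0 D.P) G) (hs : s ∈ D.U)
    (hG₁ : Gen (gext D.U G) (Q1 (gext D.U G)) (le1 (gext D.U G) s) G₁) :
    DCover D.U (gext (gext D.U G) G₁) := by
  intro f φ c hcU hφ a ha b hb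
  have zfc : ∀ {G}, Gen D.U D.P (le0 D.P) G → IsZFC (gext D.U G) := fun h =>
    isZFC_gext (isPO ok) (P_mem ok) (le_mem ok) h
  have sub : ∀ {G}, Gen D.U D.P (le0 D.P) G → D.U ⊆ gext D.U G := fun h =>
    subset_gext (P_mem ok) h
  haveI := zfc hG
  have s0 := sub hG
  have s1 : gext D.U G ⊆ gext (gext D.U G) G₁ := subset_gext Q1_mem hG₁
  have h1 : ∀ x ∈ gext D.U G, ∀ y ∈ gext D.U G, (app f x = y ↔ RQ s φ c (gext D.U G) x y) :=
    fun x hx y hy => (hφ (cons x fun _ => y) (cons_mem (s1 hx) fun _ => s1 hy)).trans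
      (ha_hom isPO_Q1 Q1_mem (le1_mem (s0 hs)) hG₁ (twin_Q1 (gext_countable hc G) (s0 hs)) φ
        (mrg_mem (cons_mem hx fun _ => hy) fun i => s0 (hcU i)))
  have := ud_RQ (F := ov D.U) hs φ hcU
  obtain ⟨χ, e, he, hχ⟩ := (inferInstance : UD (ov D.U) (fun M v => RQ s φ c M (vr v 0) (vr v 1) ∧
    ∀ y ∈ M, RQ s φ c M (vr v 0) y → y = vr v 1)).out
  have key : ∀ G', Gen D.U D.P (le0 D.P) G' → ∀ x ∈ a, ∀ y ∈ b,
      ((RQ s φ c (gext D.U G') x y ∧ ∀ y' ∈ gext D.U G', RQ s φ c (gext D.U G') x y' → y' = y) ↔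
        ∃ p ∈ G', Frc D.U D.P (le0 D.P) χ p (nm D.P e x y)) := fun G' h' x hx y hy =>
    have hx' := IsZ.trans _ ha _ hx
    have hy' := IsZ.trans _ hb _ hy
    (hχ _ ⟨zfc h', sub h'⟩ (cons x fun _ => y) (cons_mem (sub h' hx') fun _ => sub h' hy')).trans
      (truth_chk (isPO ok) (P_mem ok) (le_mem ok) h' χ (mrg_mem (cons_mem hx' fun _ => hy') he))
  obtain ⟨Δ, hΔ, mΔ⟩ : ∃ Δ ∈ D.U, ∀ p x y, pair p (pair x y) ∈ Δ ↔
      (p ∈ D.P ∧ x ∈ a ∧ y ∈ b) ∧ Frc D.U D.P (le0 D.P) χ p (nm D.P e x y) := by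
    haveI : In D.U D.P := ⟨P_mem ok⟩
    haveI : In D.U (le0 D.P) := ⟨le_mem ok⟩
    haveI : In D.U a := ⟨ha⟩
    haveI : In D.U b := ⟨hb⟩
    have := uv_nm (F := loc D.U) he
    refine ⟨_, sep_mem D.U (fun z => Frc D.U D.P (le0 D.P) χ (fst z)
      (nm D.P e (fst (snd z)) (snd (snd z)))) (memV_of D.U (prod D.P (prod a b))),
      fun p x y => ?_⟩
    simp only [mem_sep, pair_mem_prod, fst_pair, snd_pair]
  obtain ⟨K, k1, k2⟩ := cover_cohen ok hΔ ha hb fun p hp q hq x y y' a1 a2 a3 a4 => by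
    obtain ⟨⟨-, b1, b2⟩, b3⟩ := (mΔ _ _ _).1 a1
    obtain ⟨⟨-, -, b4⟩, b5⟩ := (mΔ _ _ _).1 a2
    obtain ⟨G', G'', c1, c2, c3, c4, c5⟩ := twin_P ok hc hp hq a3 a4
    have d1 := (key G' c1 x b1 y b2).2 ⟨p, c3, b3⟩
    have d2 := (key G'' c2 x b1 y' b4).2 ⟨q, c4, b5⟩
    rw [c5] at d2
    exact d2.2 y (sub c1 (IsZ.trans _ hb _ b2)) d1.1
  refine ⟨K, k1, fun x hx => ⟨(k2 x hx).1, fun hy => ?_⟩⟩
  have hx' := s0 (IsZ.trans _ ha _ hx)
  obtain ⟨p, p1, p2⟩ := (key G hG x hx _ hy).1 ⟨(h1 x hx' _ (s0 (IsZ.trans _ hb _ hy))).1 rfl,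
    fun y' k k' => ((h1 x hx' y' k).2 k').symm⟩
  exact (k2 x hx).2 p (hG.sub p1) _ hy ((mΔ _ _ _).2 ⟨⟨hG.sub p1, hx, hy⟩, p2⟩)

end PD

end Pool.Agent.Lib.MP_f9eb18_lc.W
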