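import Pool.Agent.Lib.MP_f9eb18_lc.W.B5
import Pool.Agent.Lib.MP_f9eb18_lc.H.C

/-! # The coding forcing again, with covering of definable functions -/

namespace Pool.Agent.Lib.MP_f9eb18_lc.W

open Ordinal ZFSet
set_option linter.style.haveILetI false
set_option linter.unusedVariables false
set_option synthInstance.maxSize 100000

/-- the coding forcing, with covering and with codes for collapsing maps -/
def Coding2 : Prop :=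
  ∀ (U : Set V) [IsZFC U], U.Countable → ∀ l μ : Ordinal.{0}, l < μ → Inac U l → Inac U μ →
    (∀ β < l, ∃ κ < l, β < κ ∧ Meas U κ) → DefSeq U μ →
    ∃ N, SmallExt U N μ ∧ HCWO N ∧ DCover U N ∧ om1 N = om1 U ∧ ∃ s ∈ U, ∀ β < l,
      ∃ c ∈ N, c ⊆ omegaZ ∧ ∀ γ ∈ β.toZFSet, ∃ ξ ∈ (om1 U).toZFSet, col (code s (om1 U) c) ξ = γ

theorem col_pull {e : V → V} {A κ : V} (ht : κ.IsTransitive) (h : ∀ γ ∈ κ, ∃ ξ ∈ A, e ξ = γ) :
    ∀ γ ∈ κ, ∃ ξ ∈ A, col (pull e A) ξ = γ := by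
  have key : ∀ γ ∈ κ, ∀ ξ ∈ A, e ξ = γ → col (pull e A) ξ = γ := fun γ => by
    induction γ using mem_wf.induction with
    | h γ ih =>
    rintro hγ ξ hξ rfl
    ext z
    rw [mem_col ((wf_pull e A).accP _)]
    constructor
    · rintro ⟨ζ, k, rfl⟩
      obtain ⟨k1, -, k2⟩ := pair_mem_rel.1 k
      rwa [ih _ k2 (ht _ hγ k2) ζ k1 rfl]
    · intro hz
      obtain ⟨ζ, k1, rfl⟩ := h z (ht _ hγ hz)
      exact ⟨ζ, pair_mem_rel.2 ⟨k1, hξ, hz⟩, ih _ hz (ht _ hγ hz) ζ k1 rfl⟩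
  exact fun γ hγ => let ⟨ξ, k1, k2⟩ := h γ hγ; ⟨ξ, k1, key γ hγ ξ k1 k2⟩

theorem PD.gen_onto {D : PD} [IsZFC D.U] (ok : D.Ok) {G : V} (hG : Gen D.U D.P (le0 D.P) G)
    {κ γ : V} (hκ : κ ∈ dom D.𝒲) (hγ : γ ∈ κ) :
    ∃ ξ ∈ D.w, app (gFn G D.ti) (pair (pair κ D.ti) ξ) = γ := by
  haveI : In D.U κ := ⟨PD.b5a_site ok hκ⟩
  haveI : In D.U γ := ⟨IsZ.trans _ (PD.b5a_site ok hκ) _ hγ⟩
  haveI : In D.U D.ti := ⟨PD.b5a_ti ok⟩
  obtain ⟨c, hc, k⟩ := hG.meet _ (sep_mem D.U _ (PD.P_mem ok)) (PD.dense_onto ok hκ hγ)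
  obtain ⟨x, x1, x2, x3⟩ := (mem_sep.1 k).2
  obtain ⟨κ', -, t', -, ξ, hξ, rfl, -⟩ := (PD.b5a_val ok hG hc).2.2.1 x x1
  rw [fst_pair] at x2
  rw [x2] at x1 x3
  exact ⟨ξ, hξ, (PD.gFn_app ok hG hc (Or.inl (snd_pair _ _)) x1).trans x3⟩

/-- the first forcing -/
theorem forcing0G {D : PD} [IsZFC D.U] (ok : D.Ok) (hc : D.U.Countable) {μ : Ordinal.{0}}
    (hμ : Inac D.U μ) (hl : D.l < μ) {G : V} (hG : Gen D.U D.P (le0 D.P) G) {N : Set V}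
    (hN : N = gext D.U G) : SmallExt D.U N μ ∧ om1 N = om1 D.U ∧
      (∀ f ∈ N, (∀ ξ < om1 D.U, (app f ξ.toZFSet).rank < D.l) →
        ∃ η < D.l, ∀ ξ < om1 D.U, (app f ξ.toZFSet).rank < η) ∧
      ∃ Rk ∈ N, (∀ κ ∈ dom D.𝒲, WF (app Rk κ) ∧ app Rk κ ⊆ prod D.w D.w ∧
          ∀ γ ∈ κ, ∃ ξ ∈ D.w, col (app Rk κ) ξ = γ) ∧
        ∀ κ ∈ dom D.𝒲, ∀ κ' ∈ dom D.𝒲, κ ≠ κ' → ∃ t ∈ D.A,
          Cub N (om1 D.U) (fun ν => (hgt (app Rk κ) ν.toZFSet).toZFSet ∉ app D.T t) ∧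
          Stat N (om1 D.U) (fun ν => (hgt (app Rk κ') ν.toZFSet).toZFSet ∈ app D.T t) := by
  subst hN
  have hS := small_forcing hc (PD.isPO ok) (PD.P_mem ok) (PD.le_mem ok) hG hμ (PD.rank_lt ok hl)
  haveI := hS.zfc
  haveI : In (gext D.U G) (gFn G D.ti) := ⟨PD.gFn_mem ok hG⟩
  haveI : In (gext D.U G) D.𝒲 := ⟨hS.sub ok.sites.mem⟩
  haveI : In (gext D.U G) D.w := ⟨hS.sub (om1_mem D.U)⟩
  haveI : In (gext D.U G) D.ti := ⟨IsZ.trans _ IsZ.omega _ ok.ti_mem⟩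
  have key : ∀ κ ∈ dom D.𝒲, ∀ ν < om1 D.U,
      (hgt (app (lam (dom D.𝒲) fun k => pR (gFn G D.ti) (pair k D.ti) D.w) κ) ν.toZFSet).toZFSet =
        pH (gFn G D.ti) (pair κ D.ti) ν.toZFSet := by
    intro κ hκ ν hν
    rw [app_lam _ hκ, pH]
    congr 1
    refine hgt_congr fun x hx y hy => ?_
    have hsub : ν.toZFSet ⊆ D.w := Ordinal.toZFSet_subset_toZFSet_iff.2 hν.le
    simp only [pR, pull, pair_mem_rel, hx, hy, hsub hx, hsub hy]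
  refine ⟨hS, PD.gen_om1 ok hG hc, fun f hf hb => PD.gen_bound ok hG hc hf hb,
    lam (dom D.𝒲) (fun k => pR (gFn G D.ti) (pair k D.ti) D.w), memV_of _ _, fun κ hκ => ?_,
    fun κ hκ κ' hκ' hne => ?_⟩
  · rw [app_lam _ hκ]
    refine ⟨wf_pull _ _, fun x hx => ?_,
      col_pull (ok.sites.ms κ hκ).1.isTransitive fun γ hγ => PD.gen_onto ok hG hκ hγ⟩
    unfold pR pull rel at hx
    exact (mem_sep.1 hx).1
  · haveI : In D.U D.P := ⟨PD.P_mem ok⟩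
    haveI : In D.U D.A := ⟨ok.A_mem⟩
    haveI : In D.U D.𝒲 := ⟨ok.sites.mem⟩
    haveI : In D.U κ := ⟨IsZ.trans _ (memV_of D.U (dom D.𝒲)) _ hκ⟩
    haveI : In D.U κ' := ⟨IsZ.trans _ (memV_of D.U (dom D.𝒲)) _ hκ'⟩
    obtain ⟨c, hcG, hcE⟩ := hG.meet _ (memV_of D.U _) (PD.dense_sep ok hκ hκ' hne)
    obtain ⟨t, ht, h1, h2⟩ := (mem_sep.1 hcE).2
    refine ⟨t, ht, (PD.gen_cub ok hG hcG hκ ht h1).mono fun ν hν _ h => ?_,
      (PD.gen_stat ok hG hc hcG hκ' ht h2).mono fun ν hν _ h => ?_⟩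
    · rw [key κ hκ ν hν]; exact h
    · rw [key κ' hκ' ν hν]; exact h

theorem coding2 : Coding2 := by
  intro U _ hc l μ hlμ hl hμ hmeas ⟨s, hs, hsi, σ, hσ⟩
  obtain ⟨𝒲, h𝒲⟩ := exists_sites hl hmeas
  obtain ⟨A', hA', hAω, hAi, hAs, hAd⟩ := exists_antichain hs hsi
  obtain ⟨ti, hti⟩ := hAi.nonempty
  have hti' : ti ∈ A' := hti
  haveI : In U s := ⟨hs⟩
  haveI : In U A' := ⟨hA'⟩
  haveI : In U ti := ⟨IsZ.trans _ hA' _ hti'⟩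
  set T : V := lam omegaZ fun t => ZFSet.sep (fun x => St s t x.rank) (om1 U).toZFSet with hT
  have memT : ∀ t ∈ omegaZ, ∀ o : Ordinal.{0}, o.toZFSet ∈ app T t ↔ o < om1 U ∧ St s t o := by
    intro t ht o
    rw [hT, app_lam _ ht, mem_sep, rank_toZFSet, Ordinal.toZFSet_mem_toZFSet_iff]
  have memA : ∀ t, t ∈ (insert ti (A' \ {ti}) : V) → t ∈ A' := by
    intro t ht
    rcases mem_insert_iff.1 ht with rfl | h
    · exact hti'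
    · exact (mem_sdiff.1 h).1
  let D : PD := ⟨U, l, 𝒲, A' \ {ti}, ti, T⟩
  haveI : IsZFC D.U := ‹IsZFC U›
  have ok : D.Ok := by
    refine ⟨hl, h𝒲, memV_of U _, memV_of U _, fun x hx => hAω (mem_sdiff.1 hx).1, ?_, hAω hti',
      fun h => (mem_sdiff.1 h).2 (mem_singleton.2 rfl), fun t ht => ?_,
      fun t ht t' ht' hne x hx hx' => ?_⟩
    · refine (hAi.sdiff (Set.finite_singleton ti)).mono fun x hx => ?_
      exact mem_sdiff.2 ⟨hx.1, fun h => hx.2 (mem_singleton.1 h)⟩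
    · exact (hAs t (memA t ht)).mono fun ν hν _ h => (memT t (hAω (memA t ht)) ν).2 ⟨hν, h⟩
    · have e1 : app T t = _ := app_lam _ (hAω (memA t ht))
      have e2 : app T t' = _ := app_lam _ (hAω (memA t' ht'))
      exact hAd t (memA t ht) t' (memA t' ht') hne x.rank (mem_sep.1 (e1 ▸ hx)).2
        (mem_sep.1 (e2 ▸ hx')).2
  obtain ⟨G, hG, -⟩ := exists_gen hc (PD.isPO ok) (PD.empty_mem ok)
  obtain ⟨N₀, hN₀⟩ : ∃ N₀, N₀ = gext D.U G := ⟨_, rfl⟩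
  obtain ⟨h0, hw0, hbd, Rk, hRk, hR, hsep⟩ := forcing0G ok hc hμ hlμ hG hN₀
  haveI := h0.zfc
  have hw0' : om1 N₀ = om1 U := hw0
  have hr : pw U omegaZ ⊆ powerset omegaZ := fun x hx => mem_powerset.2 (mem_pw.1 hx).2
  obtain ⟨G₁, hG₁, -⟩ := exists_gen h0.ctbl (isPO_Q1 (N := N₀) (s := s))
    (pair_mem_Q1.2 ⟨by simp, by simp, empty_subset _, empty_subset _,
      fun y hy => absurd hy (notMem_empty y)⟩ : pair ∅ ∅ ∈ Q1 N₀)
  obtain ⟨N, hN⟩ : ∃ N, N = gext N₀ G₁ := ⟨_, rfl⟩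
  have h1 : SmallExt N₀ N μ := hN ▸ small_forcing h0.ctbl isPO_Q1 Q1_mem (le1_mem (h0.sub hs)) hG₁
    h0.inac (rank_Q1 h0.inac)
  haveI := h1.zfc
  have hcov : Cover N₀ N := hN ▸ cover_Q1 h0.ctbl (h0.sub hs) hG₁
  have hcode' : ∀ Y ∈ relS N₀, ∃ c ∈ N, c ⊆ omegaZ ∧ code s (om1 N₀) c = Y := fun Y hY =>
    hN ▸ code_Q1 (h0.sub hs) hr (hw0' ▸ hsi) hG₁ hY
  have hcode : ∀ Y ∈ relS N₀, ∃ c ∈ HC N, code s (om1 N₀) c = Y := fun Y hY =>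
    let ⟨c, k1, k2, k3⟩ := hcode' Y hY; ⟨c, b4b_hc ⟨k1, k2⟩, k3⟩
  have hdc : DCover U N := by
    subst hN hN₀
    exact PD.dcover ok hc hG hs hG₁
  have hw1 : om1 N = om1 N₀ := hcov.om1_eq h1.sub
  have hw : om1 N = om1 U := hw1.trans hw0'
  have hUN : SmallExt U N μ := h0.trans h1
  have hsN : s ∈ N := hUN.sub hs
  obtain ⟨hsf, hsd, hsv⟩ := isFunc_iff.1 hsi.1
  haveI : HasS (pureAt (HC N)) s := by
    refine hasS_HC hsN (by rw [hsd, hw]) (fun x => ?_) (σ := σ) fun ξ hξ => ?_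
    · by_cases hx : x ∈ dom s
      · exact (mem_pw.1 (hsv x (hsd ▸ hx))).2
      · rw [app_of_not_mem_dom hx]; exact ZFSet.empty_subset _
    · exact hσ N hUN hw ξ (hw ▸ hξ)
  have hdom : Dom N s := dom_of_cover h1.sub hcov hcode
  haveI : In U 𝒲 := ⟨h𝒲.mem⟩
  have hS : dom 𝒲 ∈ U := memV_of U _
  have hRN : ∀ κ, app Rk κ ∈ N₀ := fun κ => IsZ.app_mem N₀ hRk κ
  have hlt : ∀ κ ∈ dom 𝒲, ∀ ν < om1 U, hgt (app Rk κ) ν.toZFSet < om1 U := by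
    intro κ hκ ν hν
    rw [← hw0'] at hν ⊢
    exact hgt_lt_om1 (hRN κ) (lt_om1_iff.1 hν)
      ((hR κ hκ).1.subset fun x hx => (mem_inter.1 hx).1)
  have hrel : ∀ κ ∈ dom 𝒲, app Rk κ ∈ relS N₀ := fun κ hκ =>
    mem_pw.2 ⟨hRN κ, by rw [hw0']; exact (hR κ hκ).2.1⟩
  refine ⟨N, hUN, hcwo_of hsN hdom (hUN.sub hS) (h1.sub hRk) (fun κ hκ => ⟨(hR κ hκ).1, ?_⟩)
    (fun κ hκ κ' hκ' he => ?_) ?_, hdc, hw, s, hs, fun β hβ => ?_⟩
  rotate_right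
  · obtain ⟨κ, hκ, k⟩ := h𝒲.cof β hβ
    obtain ⟨c, c1, c2, c3⟩ := hcode' _ (hrel κ hκ)
    rw [hw0'] at c3
    exact ⟨c, c1, c2, fun γ hγ => c3 ▸ (hR κ hκ).2.2 γ ((h𝒲.ms κ hκ).1.mem_trans hγ k)⟩
  · rw [hw1]
    exact hcode _ (hrel κ hκ)
  · by_contra hne
    obtain ⟨t, ht, c1, c2⟩ := hsep κ hκ κ' hκ' hne
    have htω : t ∈ omegaZ := ok.A_sub ht
    have m1 : t ∈ rho N s (app Rk κ) := by
      refine mem_sep.2 ⟨htω, ?_⟩
      rw [hw]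
      exact (c1.mono_model h1.sub).mono fun ν hν _ h h' =>
        h ((memT t htω _).2 ⟨hlt κ hκ ν hν, h'⟩)
    rw [he] at m1
    have m2 := (mem_sep.1 m1).2
    rw [hw1] at m2
    have m3 := hcov.cub h1.sub m2
    rw [hw0'] at m3
    exact c2 (m3.mono fun ν hν _ h h' => h ((memT t htω _).1 h').2)
  · rintro ⟨g, hg, hgs⟩
    have hlN : l.toZFSet ∈ N₀ := h0.sub hl.2.1
    have hbd' : ∀ f ∈ N₀, (∀ ξ < om1 U, (app f ξ.toZFSet).rank < l) →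
        ∃ η < l, ∀ ξ < om1 U, (app f ξ.toZFSet).rank < η := hbd
    have hcof : CofGt N₀ l := by
      refine ⟨hl.2.2.1, fun f hf hb => ?_⟩
      haveI : In N₀ f := ⟨hf⟩
      obtain ⟨η, hη, H⟩ := hbd' (restr f omegaZ) (memV_of N₀ _) fun ξ _ => by
        by_cases hξ : ξ.toZFSet ∈ omegaZ
        · rw [b5b_app_restr hξ]; exact hb _ hξ
        · rw [app_of_not_mem_dom fun h => hξ (pair_mem_restr.1 (mem_dom.1 h).choose_spec).2]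
          simpa using hl.2.2.1.bot_lt
      refine ⟨η, hη, fun x hx => ?_⟩
      obtain ⟨n, rfl⟩ := mem_omegaZ.1 hx
      have : (app (restr f omegaZ) (natZ n)).rank < η :=
        H n ((natCast_lt_omega0 n).trans (omega_lt_om1 U))
      rwa [b5b_app_restr (f := f) (natZ_mem_omegaZ n)] at this
    haveI : In N g := ⟨hg⟩
    haveI : In N l := ⟨h1.sub hlN⟩
    classical
    have hg' : (lam (om1 N).toZFSet fun x => if (app g x).rank < l then app g x else ∅) ∈ N :=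
      memV_of N _
    have val : ∀ ξ < om1 N, app (lam (om1 N).toZFSet fun x =>
        if (app g x).rank < l then app g x else ∅) ξ.toZFSet =
        if (app g ξ.toZFSet).rank < l then app g ξ.toZFSet else ∅ := fun ξ hξ =>
      app_lam _ (Ordinal.toZFSet_mem_toZFSet_iff.2 hξ)
    obtain ⟨g₀, hg₀, H⟩ := hcov.dominate h1.sub hlN hcof hg' fun ξ hξ => by
      rw [val ξ (hw1 ▸ hξ)]
      split_ifs with h
      · exact h
      · simpa using hl.2.2.1.bot_lt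
    obtain ⟨η, hη, H2⟩ := hbd' g₀ hg₀ fun ξ hξ => (H ξ (hw0' ▸ hξ)).1
    obtain ⟨κ, hκ, hηκ⟩ := h𝒲.cof η hη
    obtain ⟨ξ, hξ, rfl⟩ := hgs κ hκ
    have r1 : (app g ξ.toZFSet).rank < l := by
      simpa using ZFSet.rank_lt_of_mem (h𝒲.lt _ hκ)
    have r2 := (H ξ (hw1 ▸ hξ)).2
    rw [val ξ hξ, if_pos r1] at r2
    have r3 := H2 ξ (hw ▸ hξ)
    have r4 : η < (app g ξ.toZFSet).rank := by simpa using ZFSet.rank_lt_of_mem hηκ
    exact absurd (r4.trans_le r2) (not_lt.2 r3.le)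

end Pool.Agent.Lib.MP_f9eb18_lc.W
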