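import Pool.Agent.Lib.MP_f9eb18_lc.W.Defs

/-! # Weakly Mahlo cardinals of a class of sets -/

namespace Pool.Agent.Lib.MP_f9eb18_lc.W

open Ordinal ZFSet

/-- `κ` is regular in the class `C`: every function in `C` from an ordinal `β < κ` to `κ` is
bounded below `κ`. -/
def RegIn (C : V → Prop) (κ : Ordinal.{0}) : Prop :=
  ∀ β < κ, ∀ f, C f → IsFunc β.toZFSet κ.toZFSet f →
    ∃ γ < κ, ∀ x y, pair x y ∈ f → y ∈ γ.toZFSet

/-- `S` is a closed unbounded subset of `κ`. -/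
def ClubIn (S : V) (κ : Ordinal.{0}) : Prop :=
  S ⊆ κ.toZFSet ∧ (∀ β < κ, ∃ ξ < κ, β < ξ ∧ ξ.toZFSet ∈ S) ∧
    ∀ γ < κ, 0 < γ → (∀ β < γ, ∃ ξ < γ, β < ξ ∧ ξ.toZFSet ∈ S) → γ.toZFSet ∈ S

/-- `κ` is weakly Mahlo in the class `C`: it is uncountable and regular, a limit of uncountable
regular cardinals, and every closed unbounded subset of `κ` in `C` contains an uncountable regular
cardinal. -/
def WMahlo (C : V → Prop) (κ : Ordinal.{0}) : Prop :=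
  ω < κ ∧ RegIn C κ ∧ (∀ β < κ, ∃ γ < κ, β < γ ∧ ω < γ ∧ RegIn C γ) ∧
    ∀ S, C S → ClubIn S κ → ∃ γ : Ordinal.{0}, γ.toZFSet ∈ S ∧ ω < γ ∧ RegIn C γ

end Pool.Agent.Lib.MP_f9eb18_lc.W
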