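import Pool.Agent.Lib.MP_f9eb18_lc.W.Main
import Pool.Agent.Lib.MP_f9eb18_lc.W.R2
import Pool.Agent.Lib.MP_f9eb18_lc.H.D
import Pool.Agent.Lib.MP_f9eb18_lc.H.Defs

/-! # A weakly Mahlo cardinal of `C^2(omega)` below its continuum -/

namespace Pool.Agent.Lib.MP_f9eb18_lc.W

open Ordinal ZFSet Classical
set_option linter.style.haveILetI false
set_option linter.unusedVariables false
set_option synthInstance.maxSize 100000

/-- no function of `N` enumerates the reals of `C2N N` in length `ω₁` -/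
theorem c2_big {N : Set V} [IsZFC N] (hw : HCWO N) : ¬ ∃ f ∈ N, ∀ x, C2N N x → x ⊆ omegaZ →
    ∃ ξ < om1 N, app f ξ.toZFSet = x := by
  obtain ⟨D, lt, φ, ψ, d1, d2, d3, d4, d5, d6⟩ := hw
  rintro ⟨f, f1, f2⟩
  have hD : ∀ x, D x → x ∈ HC N := fun x hx => real_mem_HC (d1 x hx).1 (d1 x hx).2
  have key : ∀ x, D x → C2N N x := fun x => by
    induction x using d5.induction with
    | h x ih =>
    intro hx
    by_contra hn
    haveI : In N x := ⟨(d1 x hx).1⟩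
    haveI : UV (loc N) fun _ _ _ => x := ⟨fun _ => inferInstance⟩
    haveI : UV (loc N) fun _ v _ => vr v 0 := ⟨fun _ => inferInstance⟩
    obtain ⟨μ, m1, -, m2⟩ := exists_levelN (memV_of N (insert omegaZ (ZFSet.sep (fun y =>
      Sat1 (HC N) φ (fun _ => y) ∧ Sat1 (HC N) ψ (cons y fun _ => x)) (pw N omegaZ))))
      (fun y hy => (mem_insert_iff.1 hy).elim (fun e => e ▸ C2N_ord IsZ.omega) fun e => by
        obtain ⟨e1, e2, e3⟩ := mem_sep.1 e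
        have e4 := (d2 y (real_mem_HC (mem_pw.1 e1).1 (mem_pw.1 e1).2)).2 e2
        exact ih y ⟨e4, hx, (d3 y x e4 hx).2 e3⟩ e4) (ν := ω) IsZ.omega
    have hν := succ_memN m1
    have hM := JN_mem hν
    have h : Lvl (JN N (μ + 1)) := ⟨JN_trans N _, fun _ a _ b => pair_mem_JN a b,
      JN_trans N _ _ (mem_JN_succ (m2 _ (mem_insert _ _)))⟩
    have m3 : ∀ y, D y → lt y x → y ∈ JN N (μ + 1) := fun y e1 e2 =>
      mem_JN_succ (m2 y (mem_insert_of_mem _ (mem_sep.2 ⟨mem_pw.2 (d1 y e1),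
        (d2 y (hD y e1)).1 e1, (d3 y x e1 hx).1 e2⟩)))
    have m4 : x ∉ JN N (μ + 1) := fun e => hn ⟨_, hν, e⟩
    have e : ∀ (x y : V) (u : ℕ → V), (fun n => cons y (cons x u) (cons 0 (fun _ => 1) n)) =
        cons y fun _ => x := fun x y u => funext fun n => by cases n <;> rfl
    refine hn ((((((HD.sat h hM φ).ren fun _ => 0).and (HD.inM h hM 0).not).and
      (((((HD.sat h hM φ).ren fun _ => 0).and ((HD.sat h hM ψ).ren (cons 0 fun _ => 1))).and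
        (HD.inM h hM 0).not).ex h hM).not).and (HD.sat h hM (.mem 1 0))).ex h hM |>.extract hν h
      (fun a ha => h.om ((d1 x hx).2 ha)) (fun a ha => IsZ.trans _ (hD x hx) a ha) fun a _ => ?_)
    simp only [e, cons_zero, Sat1, cons_succ]
    constructor
    · rintro ⟨y, y1, ⟨⟨y2, y3⟩, y4⟩, y5⟩
      have y6 := (d2 y y1).2 y2
      rcases d4 y x y6 hx with k | rfl | k
      · exact (y3 (m3 y y6 k)).elim
      · exact y5
      · exact (y4 ⟨x, hD x hx, ⟨(d2 x (hD x hx)).1 hx, (d3 x y hx y6).1 k⟩, m4⟩).elim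
    · exact fun ha => ⟨x, hD x hx, ⟨⟨(d2 x (hD x hx)).1 hx, m4⟩, fun ⟨y, y1, ⟨y2, y3⟩, y4⟩ =>
        y4 (m3 y ((d2 y y1).2 y2) ((d3 y x ((d2 y y1).2 y2) hx).2 y3))⟩, ha⟩
  exact d6 ⟨f, f1, fun x hx => f2 x (key x hx) (d1 x hx).2⟩

theorem WoodE.exists_meas_gt {N : Set V} [IsZFC N] {δ β₀ : Ordinal.{0}} (h : WoodE N δ)
    (h₀ : β₀ < δ) : ∃ l μ : Ordinal.{0}, β₀ < l ∧ l < μ ∧ μ < δ ∧ Inac N l ∧ Inac N μ ∧ ∀ β < l, ∃ κ < l, β < κ ∧ Meas N κ := by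
  haveI : UD (loc N) (fun _ v => Meas N (vr v 0).rank) := by unfold Meas; infer_instance
  have hB := sep_mem N (fun x => Meas N x.rank) h.2.1
  have hs : ∀ x ∈ ZFSet.sep (fun x => Meas N x.rank) δ.toZFSet, x.rank < δ := fun x hx => by
    simpa using rank_lt_of_mem (mem_sep.1 hx).1
  obtain ⟨l, h1, h1', h2⟩ := ee_st h hB hs h₀
  obtain ⟨μ, h3, h4, h5⟩ := ee_st h hB hs h1
  refine ⟨l, μ, h1', h4, h3, ee_inac h.inac h2 h1, ee_inac h.inac h5 h3, fun β hβ => ?_⟩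
  by_contra hc
  obtain ⟨E, hE, k1, k2, rfl, -, k5, k6⟩ := h2 0 h.1
  have h6 := k1.crit_limit.succ_lt hβ
  obtain ⟨k7, k8⟩ := ee_mem_K k1 k2 (IsZ.ord_mem_of_le N h.2.1 (h6.trans h1).le)
    (by rwa [rank_toZFSet])
  have k9 := k1.mono k5 k8 fun x hx => by
    obtain ⟨h7, h8⟩ := mem_cut.1 hx
    obtain ⟨h9, h10⟩ := mem_sep.1 h7
    obtain ⟨κ, -, rfl⟩ := mem_toZFSet_iff.1 h9
    rw [rank_toZFSet] at h8 h10
    exact toZFSet_mem_toZFSet_iff.2 (Order.lt_succ_of_le (not_lt.1 fun k => hc ⟨κ, h8, k, h10⟩))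
  rw [k6, k1.fix _ k7] at k9
  exact h6.not_gt (toZFSet_mem_toZFSet_iff.1 (k9 (mem_cut.2 ⟨mem_sep.2
    ⟨toZFSet_mem_toZFSet_iff.2 h1, E, hE, k1, k2, (rank_toZFSet _).symm⟩, by
      rw [rank_toZFSet]; exact k1.crit_lt_len⟩)))

/-- every function on `κ` has an inaccessible closure point -/
def MahloU (N : Set V) (κ : Ordinal.{0}) : Prop :=
  ∀ g ∈ N, (∀ x ∈ κ.toZFSet, (app g x).rank < κ) →
    ∃ γ < κ, Inac N γ ∧ ∀ x ∈ γ.toZFSet, (app g x).rank < γ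

theorem ee_mahlo {N : Set V} [IsZFC N] {δ κ : Ordinal.{0}} (h : Inac N δ) {B : V}
    (hs : ee_St N δ κ B) (hκ : κ < δ) : MahloU N κ := by
  haveI := h.isZFC_Vs
  have hi := ee_inac h hs hκ
  obtain ⟨E, -, Q, -, i, -, hU, rfl, -, hZ, -⟩ := ee_ult h hs hκ hκ
  haveI := hU.isT_right
  intro g hg hb
  haveI : In N g := ⟨hg⟩
  haveI : In N (crit E) := ⟨hi.2.1⟩
  obtain ⟨f, hf, e⟩ : ∃ f ∈ (Vs N δ : Set V), ∀ x ∈ (crit E).toZFSet, app f x = app g x := by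
    refine ⟨lam (crit E).toZFSet fun x => app g x, mem_Vs.2 ⟨memV_of N _,
      (rank_le_iff.2 fun p hp => ?_).trans_lt hκ⟩, fun x hx => app_lam _ hx⟩
    obtain ⟨x, hx, rfl⟩ := mem_lam.1 hp
    exact (rank_pair_lt hi.2.2.1).2 ⟨z5c_mem hx, hb x hx⟩
  have hq : Inac (Q : Set V) (crit E) := hi.of_Vs (fun x hx hr => by
      have k : x ∈ cut Q (len E) := mem_cut.2 ⟨hx, hr.trans_lt hU.ext.crit_lt_len⟩
      rw [hU.cut_len, hZ] at k
      exact (mem_Vs.1 k).1)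
    (hU.sub (hZ ▸ mem_Vs.2 ⟨hi.2.1, (rank_toZFSet _).trans_lt hU.ext.crit_lt_len⟩))
  obtain ⟨γ, h1, h2, h3⟩ := (hU.elem.elem.iff2 pZ (fun M (f : V) (o : Ordinal.{0}) =>
    ∃ γ < o, Inac M γ ∧ ∀ x ∈ γ.toZFSet, (app f x).rank < γ) hf hU.crit_mem).2
    ⟨crit E, hU.ht_eq ▸ hU.ext.crit_lt_len.trans_le hU.len_le_ht, hq, fun x hx => by
      have h1 : x ∈ (Vs N δ : Set V) := IsZ.trans (M := (Vs N δ : Set V)) _ hU.crit_mem x hx
      have h2 := hU.elem.elem.map_app hf h1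
      have k : (app f x).rank < crit E := e x hx ▸ hb x hx
      rw [hU.fix h1 (z5c_mem hx), hU.fix (IsZ.app_mem (Vs N δ : Set V) hf x) k] at h2
      rw [jm_V, ← h2]
      exact k⟩
  exact ⟨γ, h1, h2.of_Vs (fun x hx hr => mem_Vs.2 ⟨hx, hr.trans_lt (h1.trans hκ)⟩)
    (IsZ.ord_mem_of_le N hi.2.1 h1.le), fun x hx => e x (toZFSet_monotone h1.le hx) ▸ h3 x hx⟩

section
variable {U N : Set V} [IsZFC U] [IsZFC N] (hs : U ⊆ N) (hd : DCover U N)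
include hd

/-- definable functions are dominated by functions of the ground model -/
theorem DCover.dominate {γ : Ordinal.{0}} (hγ : Inac U γ) (f : V)
    [UF (par U N hs) (fun _ _ => f)] {a : V} (ha : a ∈ U) :
    ∃ g ∈ U, ∀ x ∈ a, (app g x).rank < γ ∧ (app f x ∈ γ.toZFSet → app f x ∈ app g x) := by
  obtain ⟨φ, c, h1, h2⟩ :=
    (inferInstance : UD (par U N hs) (fun _ v => app f (vr v 0) = vr v 1)).out
  obtain ⟨K, hK, H⟩ := hd f φ c h1 (h2 N rfl) a ha _ hγ.2.1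
  haveI : In U K := ⟨hK⟩
  haveI : In U a := ⟨ha⟩
  haveI : In U γ := ⟨hγ.2.1⟩
  refine ⟨_, memV_of U (lam a fun x => app K x ∩ γ.toZFSet), fun x hx => ?_⟩
  haveI : In U x := ⟨IsZ.trans _ ha _ hx⟩
  rw [app_lam _ hx]
  exact ⟨hγ.cofGt.rank_lt ((H x hx).1.of_subset (memV_of U _) fun y hy => (mem_inter.1 hy).1)
    fun y hy => z5c_mem (mem_inter.1 hy).2, fun k => mem_inter.2 ⟨(H x hx).2 k, k⟩⟩

theorem DCover.bdd {γ : Ordinal.{0}} (hγ : Inac U γ) (f : V)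
    [UF (par U N hs) (fun _ _ => f)] {a : V} (ha : a ∈ U) (hr : a.rank < γ) :
    ∃ δ < γ, ∀ x ∈ a, app f x ∈ γ.toZFSet → app f x ∈ δ.toZFSet := by
  obtain ⟨g, hg, H⟩ := hd.dominate hs hγ f ha
  obtain ⟨δ, h1, h2⟩ := hγ.2.2.2 a ha hr g hg fun x hx => (H x hx).1
  refine ⟨δ, h1, fun x hx k => ?_⟩
  have k' := (rank_lt_of_mem ((H x hx).2 k)).trans (h2 x hx)
  obtain ⟨ξ, -, e⟩ := mem_toZFSet_iff.1 k
  rw [← e, rank_toZFSet] at k'
  exact e ▸ toZFSet_mem_toZFSet_iff.2 k'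

variable (ho : ∀ o : Ordinal.{0}, o.toZFSet ∈ N → o.toZFSet ∈ U)
include ho

omit hd in
theorem c2_par {x : V} (h : C2N N x) : UF (par U N hs) (fun _ _ => x) :=
  c2_uf (fun _ e => e) ho h

include hs
theorem DCover.reg {γ : Ordinal.{0}} (hγ : Inac U γ) : RegIn (C2N N) γ := by
  intro β hβ f hf hF
  haveI := c2_par hs ho hf
  obtain ⟨δ, h1, h2⟩ := hd.bdd hs hγ f (IsZ.ord_mem_of_le U hγ.2.1 hβ.le)
    ((rank_toZFSet β).trans_lt hβ)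
  obtain ⟨f1, f2, f3⟩ := isFunc_iff.1 hF
  refine ⟨δ, h1, fun x y k => ?_⟩
  have hx : x ∈ β.toZFSet := f2 ▸ mem_dom.2 ⟨y, k⟩
  exact f1.app_eq k ▸ h2 x hx (f3 x hx)

theorem DCover.mahlo {κ : Ordinal.{0}} (hκ : Inac U κ) (hm : MahloU U κ) : WMahlo (C2N N) κ := by
  refine ⟨hκ.1, hd.reg hs ho hκ, fun β hβ => ?_, fun S hS ⟨s1, s2, s3⟩ => ?_⟩
  · haveI : In U κ := ⟨hκ.2.1⟩
    haveI : In U β := ⟨IsZ.ord_mem_of_le U hκ.2.1 hβ.le⟩
    obtain ⟨γ, h1, h2, h3⟩ := hm _ (memV_of U (lam κ.toZFSet fun _ => β.toZFSet)) fun x hx => by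
      rwa [app_lam _ hx, rank_toZFSet]
    have k := h3 _ (toZFSet_mem_toZFSet_iff.2 h2.1)
    rw [app_lam _ (toZFSet_mem_toZFSet_iff.2 hκ.1), rank_toZFSet] at k
    exact ⟨γ, h1, k, h2.1, hd.reg hs ho h2⟩
  · haveI := c2_par hs ho hS
    haveI : UF (par U N hs) (fun _ _ => κ) := uf_par hκ.2.1
    obtain ⟨g, hg, H⟩ := hd.dominate hs hκ (lam κ.toZFSet fun x =>
      (olst κ fun ξ => x.rank < ξ ∧ ξ.toZFSet ∈ S).toZFSet) hκ.2.1
    obtain ⟨γ, h1, h2, h3⟩ := hm g hg fun x hx => (H x hx).1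
    refine ⟨γ, s3 γ h1 h2.2.2.1.pos fun β hβ => ?_, h2.1, hd.reg hs ho h2⟩
    have k1 := toZFSet_mem_toZFSet_iff.2 (hβ.trans h1)
    have k2 := b0c_olst (s2 β (hβ.trans h1))
    have k3 := (H _ k1).2
    rw [app_lam _ k1, rank_toZFSet] at k3
    have k4 := (rank_lt_of_mem (k3 (toZFSet_mem_toZFSet_iff.2 k2))).trans
      (h3 _ (toZFSet_mem_toZFSet_iff.2 hβ))
    rw [rank_toZFSet] at k4
    exact ⟨_, k4, olst_spec k2⟩
end

theorem main_mahlo (n : ℕ) (hn : 1 ≤ n) (U : Set V) (hU : IsZFC U) (hW : NWoodins U n) :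
    ∃ N : Set V, N.Countable ∧ IsZFC N ∧ NWoodins N n ∧ ¬ CHinC2N N ∧
      (∃ κ : Ordinal.{0}, κ.toZFSet ∈ N ∧ WMahlo (C2N N) κ ∧ ∀ β ≤ κ,
        ¬ ∃ f, C2N N f ∧ IsOnto f β.toZFSet (fun b => C2N N b ∧ b ⊆ omegaZ)) ∧
      ∃ x ∈ N, x ⊆ omegaZ ∧ ¬ C2N N x := by
  obtain ⟨δ₀, h₀⟩ := ws_of_nWoodins hW
  obtain ⟨N₀, δ₁, i₀, hc₀, h₁⟩ := exists_ctm_ws h₀
  obtain ⟨M, δ, iM, hc, hw, hmin⟩ := exists_minl N₀ hc₀ h₁
  have w1 := hw.1 0 hn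
  obtain ⟨κ, k1, -, k2⟩ := ee_st w1 (IsZ.empty_mem M) (fun x hx => absurd hx (notMem_empty x)) w1.1
  have k3 := ee_inac w1.inac k2 k1
  have k4 := ee_mahlo w1.inac k2 k1
  obtain ⟨l, μ, hκl, hlt, hμ, hl, hi, hme⟩ := w1.exists_meas_gt k1
  let δ' : ℕ → Ordinal.{0} := fun j => Nat.casesOn j μ (fun k => δ (k + 1))
  have hm : MinM M n δ' := by
    refine ⟨hc, hi, fun j hj => ?_, hw.1, hmin⟩
    cases j with
    | zero => exact hμ
    | succ j => exact hw.2 j hj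
  obtain ⟨N, he, hh, hd, hw1, s, hs, hcol⟩ := coding2 M hc l μ hlt hl hi hme (hm.defSeq rt)
  haveI := he.zfc
  refine ⟨N, he.ctbl, he.zfc, nWoodins_of_ws (δ := δ) ⟨fun j hj => he.wood _ ?_ (hw.1 j hj), hw.2⟩,
    c2Thm N hh, ⟨κ, he.sub k3.2.1, hd.mahlo he.sub he.ord k3 k4, fun β hβ ⟨f, f1, f2⟩ => ?_⟩, ?_⟩
  · induction j with
    | zero => exact hμ
    | succ j ih => exact (ih (by omega)).trans (hw.2 j hj)
  · obtain ⟨c, c1, -, c3⟩ := hcol β (hβ.trans_lt hκl)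
    haveI : In N c := ⟨c1⟩
    haveI : In N s := ⟨he.sub hs⟩
    haveI : In N f := ⟨f1.mem⟩
    rw [← hw1] at c3
    refine c2_big hh ⟨_, memV_of N (lam (om1 N).toZFSet fun ξ =>
      app f (col (code s (om1 N) c) ξ)), fun x x1 x2 => ?_⟩
    obtain ⟨a, a1, a2⟩ := c2_onto f2 ⟨x1, x2⟩
    obtain ⟨ξ, b1, b2⟩ := c3 a a1
    obtain ⟨ζ, b3, rfl⟩ := mem_toZFSet_iff.1 b1
    exact ⟨ζ, b3, by rw [app_lam _ b1, b2, a2]⟩
  · obtain ⟨c, c1, c2, c3⟩ := hcol κ hκl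
    refine ⟨c, c1, c2, fun hc2 => ?_⟩
    haveI := c2_par he.sub he.ord hc2
    haveI : UF (par M N he.sub) (fun _ _ => s) := uf_par hs
    haveI : HasS (par M N he.sub) s := ⟨UF.app⟩
    haveI : UF (par M N he.sub) (fun _ _ => om1 M) := uf_par (om1_mem M)
    obtain ⟨η, h1, h2⟩ := hd.bdd he.sub k3 (lam (om1 M).toZFSet fun ξ => col (code s (om1 M) c) ξ)
      (om1_mem M) ((rank_toZFSet _).trans_lt k3.om1_lt)
    obtain ⟨ξ, b1, b2⟩ := c3 _ (toZFSet_mem_toZFSet_iff.2 h1)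
    have k := h2 ξ b1
    rw [app_lam _ b1, b2] at k
    exact mem_irrefl _ (k (toZFSet_mem_toZFSet_iff.2 h1))

/-- the earlier statement `Consistent` is literally a part of `main_mahlo` -/
theorem consistent_of_mahlo (n : ℕ) (hn : 1 ≤ n) (U : Set V) (hU : IsZFC U) (hW : NWoodins U n) :
    ∃ N : Set V, N.Countable ∧ IsZFC N ∧ NWoodins N n ∧ ¬ CHinC2N N :=
  let ⟨N, h1, h2, h3, h4, _⟩ := main_mahlo n hn U hU hW
  ⟨N, h1, h2, h3, h4⟩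

end Pool.Agent.Lib.MP_f9eb18_lc.W
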